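import Mathlib

set_option autoImplicit false

namespace Pool.Agent.H.MP_286f1f_ag

open Polynomial

lemma sect {B κ : Type} [CommRing B] [Field κ] (p : ℕ) [hp : Fact p.Prime] [CharP B p]
    [CharP κ p] (π : B →+* κ) (hπ : Function.Surjective π)
    (hsq : ∀ x y, π x = 0 → π y = 0 → x * y = 0) : ∃ s : κ →+* B, ∀ x, π (s x) = x := by
  have hp2 := hp.out.two_le
  obtain ⟨S, -, hS⟩ := zorn_le_nonempty₀
    {S : Subring B | (∀ b, b ^ p ∈ S) ∧ ∀ x ∈ S, π x = 0 → x = 0} (fun c hc hch y hy =>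
      ⟨sSup c, ⟨fun b => le_sSup hy ((hc hy).1 b), fun x hx h => by
        obtain ⟨T, hT, hx⟩ := (Subring.mem_sSup_of_directedOn ⟨y, hy⟩ hch.directedOn).mp hx
        exact (hc hT).2 x hx h⟩, fun z hz => le_sSup hz⟩) (frobenius B p).range
    ⟨fun b => ⟨b, rfl⟩, by
      rintro _ ⟨b, rfl⟩ h
      rw [frobenius_def] at h ⊢
      rw [map_pow] at h
      have h1 := pow_eq_zero_iff hp.out.ne_zero |>.mp h
      rw [show p = 2 + (p - 2) by omega, pow_add, pow_two, hsq b b h1 h1, zero_mul]⟩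
  have hinj : Function.Injective (π.comp S.subtype) :=
    (injective_iff_map_eq_zero _).mpr fun x hx => Subtype.ext (hS.prop.2 x.1 x.2 hx)
  have hsurj : Function.Surjective (π.comp S.subtype) := by
    intro x
    by_contra hx
    let E : Subfield κ := { S.map π with
      inv_mem' := by
        rintro _ ⟨s, hs, rfl⟩
        obtain ⟨t, ht⟩ := hπ (π s)⁻¹
        refine ⟨s ^ (p - 1) * t ^ p, S.mul_mem (S.pow_mem hs _) (hS.prop.1 t), ?_⟩
        rw [map_mul, map_pow, map_pow, ht]
        by_cases h : π s = 0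
        · simp [h, hp.out.ne_zero]
        · obtain ⟨m, rfl⟩ : ∃ m, p = m + 1 := ⟨p - 1, by omega⟩
          rw [Nat.add_sub_cancel, pow_succ, ← mul_assoc, ← mul_pow, mul_inv_cancel₀ h, one_pow,
            one_mul] }
    obtain ⟨y, rfl⟩ := hπ x
    let θ : S →+* E := (π.comp S.subtype).codRestrict E fun s => ⟨s.1, s.2, rfl⟩
    have hθ1 : Function.Injective θ := fun a b h => hinj (congrArg Subtype.val h)
    have hθ2 : Function.Surjective θ := by
      rintro ⟨_, s, hs, rfl⟩
      exact ⟨⟨s, hs⟩, rfl⟩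
    let a : S := ⟨y ^ p, hS.prop.1 y⟩
    have hirr : Irreducible (X ^ p - C (θ a)) := by
      refine X_pow_sub_C_irreducible_of_prime hp.out fun b hb => hx ?_
      obtain ⟨s, rfl⟩ := hθ2 b
      refine ⟨s, frobenius_inj κ p ?_⟩
      have := congrArg Subtype.val hb
      rw [frobenius_def, frobenius_def, ← map_pow π]
      exact this
    have hmin : X ^ p - C (θ a) = minpoly E (π y) :=
      minpoly.eq_of_irreducible_of_monic hirr (by
        rw [map_sub, map_pow, aeval_X, aeval_C, ← map_pow, sub_eq_zero]; rfl)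
        (monic_X_pow_sub_C _ hp.out.ne_zero)
    have hle : S ≤ (eval₂RingHom S.subtype y).range := fun s hs => ⟨C ⟨s, hs⟩, by simp⟩
    have := hS.le_of_ge (y := (eval₂RingHom S.subtype y).range)
      ⟨fun b => hle (hS.prop.1 b), by
        rintro _ ⟨g, rfl⟩ hg
        have h1 : aeval (π y) (g.map θ) = 0 := by
          rw [aeval_def, eval₂_map, ← hg, coe_eval₂RingHom, hom_eval₂]; rfl
        obtain ⟨h, hh⟩ := minpoly.dvd E _ h1
        obtain ⟨h', rfl⟩ := Polynomial.map_surjective θ hθ2 h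
        have h2 : g = (X ^ p - C a) * h' := Polynomial.map_injective θ hθ1 (by
          rw [hh, ← hmin]; simp)
        rw [h2, map_mul, map_sub, map_pow]
        simp [a]⟩ hle
    exact hx ⟨⟨y, this ⟨X, by simp⟩⟩, rfl⟩
  exact ⟨S.subtype.comp (RingEquiv.ofBijective _ ⟨hinj, hsurj⟩).symm.toRingHom,
    fun x => (RingEquiv.ofBijective _ ⟨hinj, hsurj⟩).apply_symm_apply x⟩

lemma fsmooth (κ : Type) [Field κ] (p : ℕ) [hp : Fact p.Prime] [CharP κ p]
    [Algebra (ZMod p) κ] : Algebra.FormallySmooth (ZMod p) κ := by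
  let f : MvPolynomial κ (ZMod p) →ₐ[ZMod p] κ := MvPolynomial.aeval id
  have hf : Function.Surjective f := fun x => ⟨MvPolynomial.X x, by simp [f]⟩
  have surj : Function.Surjective f.kerSquareLift :=
    Ideal.Quotient.lift_surjective_of_surjective _ _ hf
  have sqz : RingHom.ker f.kerSquareLift.toRingHom ^ 2 = ⊥ := by
    rw [AlgHom.ker_kerSquareLift, Ideal.cotangentIdeal_square]
  have := f.kerSquareLift.toRingHom.domain_nontrivial
  have : CharP (MvPolynomial κ (ZMod p) ⧸ RingHom.ker f.toRingHom ^ 2) p :=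
    charP_of_injective_algebraMap' (ZMod p) p
  obtain ⟨s, hs⟩ := sect p f.kerSquareLift.toRingHom surj fun x y hx hy => by
    have := Ideal.mul_mem_mul (I := RingHom.ker f.kerSquareLift.toRingHom)
      (J := RingHom.ker f.kerSquareLift.toRingHom) hx hy
    rwa [← pow_two, sqz] at this
  exact (Algebra.FormallySmooth.iff_split_surjection f hf).mpr
    ⟨⟨s, fun r => congr($(RingHom.ext_zmod (s.comp (algebraMap _ _)) (algebraMap _ _)) r)⟩,
      AlgHom.ext hs⟩

lemma coeff_field {S : Type} [CommRing S] [IsLocalRing S] (p : ℕ) [hp : Fact p.Prime] [CharP S p]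
    [IsAdicComplete (IsLocalRing.maximalIdeal S) S] :
    ∃ s : IsLocalRing.ResidueField S →+* S, ∀ x, IsLocalRing.residue S (s x) = x := by
  let _ : Algebra (ZMod p) S := ZMod.algebra S p
  have : CharP (IsLocalRing.ResidueField S) p := charP_of_injective_algebraMap' (ZMod p) p
  obtain ⟨g, hg⟩ := @Algebra.FormallySmooth.exists_mkₐ_comp_eq_of_isAdicComplete
    (ZMod p) (IsLocalRing.ResidueField S) _ _ _ S _ _ (fsmooth (IsLocalRing.ResidueField S) p)
    (IsLocalRing.maximalIdeal S) _ (AlgHom.id _ _)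
  exact ⟨g.toRingHom, fun x => congr($hg x)⟩

end Pool.Agent.H.MP_286f1f_ag
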