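import Pool.Agent.H.MP_286f1f_ag.F1
import Pool.Agent.H.MP_286f1f_ag.A1

set_option autoImplicit false

namespace Pool.Agent.H.MP_286f1f_ag

open Finset Filter Topology MvPowerSeries

variable {d : ℕ} {k : Type} [Field k]

lemma prec_pi {T : Type} [CommRing T] (I : Ideal T) [IsPrecomplete I T] (m : ℕ) :
    IsPrecomplete I (Fin m → T) := by
  have key : ∀ (n : ℕ) (x : Fin m → T), x ∈ (I ^ n • ⊤ : Submodule T (Fin m → T)) ↔
      ∀ i, x i ∈ (I ^ n • ⊤ : Submodule T T) := by
    intro n x
    refine ⟨fun h i => smul_le_comap I (LinearMap.proj (R := T) (φ := fun _ => T) i) n h, fun h => ?_⟩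
    rw [← Finset.univ_sum_single x]
    exact Submodule.sum_mem _ fun i _ =>
      smul_le_comap I (LinearMap.single T (fun _ => T) i) n (h i)
  refine ⟨fun f hf => ?_⟩
  have : ∀ i, ∃ L : T, ∀ n, f n i ≡ L [SMOD (I ^ n • ⊤ : Submodule T T)] := fun i =>
    IsPrecomplete.prec' (fun n => f n i) fun {a b} h =>
      SModEq.sub_mem.mpr ((key _ _).mp (SModEq.sub_mem.mp (hf h)) i)
  choose L hL using this
  exact ⟨L, fun n => SModEq.sub_mem.mpr ((key _ _).mpr fun i => SModEq.sub_mem.mp (hL i n))⟩

lemma exists_hom {S : Type} [CommRing S] [Algebra k S] (I : Ideal S) [IsAdicComplete I S]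
    (x : Fin d → S) (hx : ∀ i, x i ∈ I) : ∃ φ : MvPowerSeries (Fin d) k →+* S,
      (∀ i, φ (X i) = x i) ∧ ∀ c, φ (algebraMap k _ c) = algebraMap k S c := by
  let e : MvPolynomial (Fin d) k →+* S := (MvPolynomial.aeval x).toRingHom
  have he : ∀ n, MvPolynomial.idealOfVars (Fin d) k ^ n ≤ (I ^ n).comap e := fun n => by
    refine le_trans (Ideal.pow_right_mono ?_ n) (Ideal.le_comap_pow e n)
    rw [Ideal.span_le]
    rintro _ ⟨i, rfl⟩
    simpa [e] using hx i
  let f : (n : ℕ) → MvPowerSeries (Fin d) k →+* S ⧸ I ^ n := fun n =>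
    (Ideal.quotientMap (I ^ n) e (he n)).comp (truncTotalAlgHom (Fin d) k n).toRingHom
  have hf0 : ∀ n p, f n p = Ideal.Quotient.mk _ (e (truncTotal n p)) := fun n p => rfl
  have hf : ∀ {m n : ℕ} (hle : m ≤ n), (Ideal.Quotient.factorPow I hle).comp (f n) = f m := by
    intro m n hle
    ext p
    rw [RingHom.comp_apply, hf0, hf0]
    refine (Ideal.Quotient.factor_mk _ _).trans ?_
    rw [Ideal.Quotient.eq, ← map_sub]
    exact he m (truncTotal_sub_truncTotal_mem_pow_idealOfVars hle le_rfl p)
  have key : (fun p : MvPolynomial (Fin d) k =>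
      IsAdicComplete.liftRingHom I f hf (algebraMap _ _ p)) = e := by
    refine IsHausdorff.funext' I fun n p => ?_
    rw [IsAdicComplete.mk_liftRingHom]
    exact congrArg (Ideal.quotientMap (I ^ n) e (he n)) ((truncTotalAlgHom (Fin d) k n).commutes p)
  refine ⟨IsAdicComplete.liftRingHom I f hf, fun i => ?_, fun c => ?_⟩
  · have := congrFun key (MvPolynomial.X i)
    simpa [e, RingHom.algebraMap_toAlgebra] using this
  · have := congrFun key (MvPolynomial.C c)
    simpa [e, RingHom.algebraMap_toAlgebra, MvPowerSeries.algebraMap_apply] using this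

lemma finite_of {S : Type} [CommRing S] [Algebra k S] [Algebra (MvPowerSeries (Fin d) k) S]
    [IsScalarTower k (MvPowerSeries (Fin d) k) S] (I : Ideal S) [IsHausdorff I S]
    (hI : (mX d k).map (algebraMap _ S) ≤ I)
    [Module.Finite k (S ⧸ (mX d k • ⊤ : Submodule (MvPowerSeries (Fin d) k) S))] :
    Module.Finite (MvPowerSeries (Fin d) k) S := by
  have : IsHausdorff (mX d k) S := IsHausdorff.of_map hI
  obtain ⟨m, s, hs⟩ := Module.Finite.exists_fin (R := k)
    (M := S ⧸ (mX d k • ⊤ : Submodule (MvPowerSeries (Fin d) k) S))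
  choose t ht using fun i => Submodule.mkQ_surjective _ (s i)
  have := prec_pi (mX d k) m
  refine Module.Finite.of_surjective (Fintype.linearCombination (MvPowerSeries (Fin d) k) t)
    (surjective_of_mkQ_comp_surjective (I := mX d k) fun y => ?_)
  obtain ⟨c, hc⟩ := (Submodule.mem_span_range_iff_exists_fun _).mp
    (show y ∈ Submodule.span k (Set.range s) by rw [hs]; trivial)
  refine ⟨fun i => algebraMap k _ (c i), ?_⟩
  rw [← hc, LinearMap.comp_apply, Fintype.linearCombination_apply, map_sum]
  exact Finset.sum_congr rfl fun i _ => by rw [map_smul, ht, algebraMap_smul]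

open IsLocalRing in
lemma lam_compl {R : Type} [CommRing R] [IsLocalRing R] [IsNoetherianRing R] (I : Ideal R)
    (hI : I.radical = maximalIdeal R) (n : ℕ) :
    lam (I.map (algebraMap R (AdicCompletion (maximalIdeal R) R)))
      (AdicCompletion (maximalIdeal R) R) n = Module.length R (R ⧸ I ^ n) := by
  have h1 : ∀ m : Ideal (AdicCompletion (maximalIdeal R) R), m.IsMaximal →
      Function.Surjective (algebraMap R (AdicCompletion (maximalIdeal R) R ⧸ m)) := by
    intro m hm
    obtain rfl := eq_maximalIdeal hm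
    exact (AdicCompletion.residueField_map_bijective R).2.comp residue_surjective
  rw [← lam_tower h1]
  obtain ⟨N, hN⟩ : ∃ N, maximalIdeal R ^ N ≤ I ^ n := by
    obtain ⟨N, hN⟩ := Ideal.exists_pow_le_of_le_radical_of_fg hI.ge (IsNoetherian.noetherian _)
    exact ⟨N * n, by rw [pow_mul]; exact Ideal.pow_right_mono hN n⟩
  have hfg : (maximalIdeal R).FG := IsNoetherian.noetherian _
  let g : R →ₗ[R] AdicCompletion (maximalIdeal R) R ⧸
      (I ^ n • ⊤ : Submodule R (AdicCompletion (maximalIdeal R) R)) :=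
    (Submodule.mkQ _).comp (AdicCompletion.of (maximalIdeal R) R)
  have hg : Function.Surjective g := by
    intro y
    obtain ⟨y, rfl⟩ := Submodule.mkQ_surjective _ y
    obtain ⟨r, hr⟩ := Submodule.mkQ_surjective _ (AdicCompletion.eval (maximalIdeal R) R N y)
    refine ⟨r, (Submodule.Quotient.eq _).mpr (Submodule.smul_mono hN le_rfl ?_)⟩
    rw [AdicCompletion.pow_smul_top_eq_ker_eval hfg, LinearMap.mem_ker, map_sub,
      AdicCompletion.eval_of, hr, sub_self]
  have hker : LinearMap.ker g = I ^ n := by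
    ext r
    rw [LinearMap.mem_ker, LinearMap.comp_apply, Submodule.mkQ_apply,
      Submodule.Quotient.mk_eq_zero]
    constructor
    · intro h
      let ψ : AdicCompletion (maximalIdeal R) R →ₗ[R] R ⧸ (I ^ n • ⊤ : Submodule R R) :=
        (Submodule.factor (Submodule.smul_mono hN le_rfl)).comp
          (AdicCompletion.eval (maximalIdeal R) R N)
      have h2 : ψ (AdicCompletion.of (maximalIdeal R) R r) ∈
          (I ^ n • ⊤ : Submodule R (R ⧸ (I ^ n • ⊤ : Submodule R R))) := smul_le_comap I ψ n h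
      rw [← Submodule.range_mkQ, ← Submodule.map_top, ← Submodule.map_smul'',
        Submodule.mkQ_map_self] at h2
      have h3 : r ∈ (I ^ n • ⊤ : Submodule R R) := (Submodule.Quotient.mk_eq_zero _).mp h2
      simpa using h3
    · intro h
      exact smul_le_comap I _ n (by simpa using h)
  unfold lam
  rw [← (g.quotKerEquivOfSurjective hg).length_eq, hker]

end Pool.Agent.H.MP_286f1f_ag
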