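import Mathlib

set_option autoImplicit false

namespace Pool.Agent.H.MP_286f1f_ag

open Finset Filter Topology

lemma len_eq {A B : Type} [CommRing A] [CommRing B] [Algebra A B]
    (h : ∀ m : Ideal B, m.IsMaximal → Function.Surjective (algebraMap A (B ⧸ m)))
    (M : Type) [AddCommGroup M] [Module A M] [Module B M] [IsScalarTower A B M] :
    Module.length A M = Module.length B M := by
  by_cases hM : IsFiniteLength B M
  · obtain ⟨s, hs_bot, hs_top⟩ := isFiniteLength_iff_exists_compositionSeries.mp hM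
    rw [← Module.length_compositionSeries s hs_bot hs_top]
    suffices ∀ j, Module.length A (s j) = (j : ℕ) by
      rw [← Fin.val_last s.length, ← this, ← RelSeries.last, hs_top]
      exact Module.length_top.symm
    intro j
    induction j using Fin.induction with
    | zero => rw [← RelSeries.head, hs_bot]; simp
    | succ i hi =>
      have hc : s i.castSucc ⋖ s i.succ := s.step i
      let f : s i.castSucc →ₗ[B] s i.succ := Submodule.inclusion hc.le
      have key : IsSimpleModule B (s i.succ ⧸ f.range) := by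
        rwa [Submodule.range_inclusion, ← covBy_iff_quot_is_simple hc.le]
      obtain ⟨m, hm, ⟨e⟩⟩ := isSimpleModule_iff_quot_maximal.mp key
      let g : s i.succ →ₗ[B] B ⧸ m := e.comp f.range.mkQ
      have h1 : Function.Injective f := Submodule.inclusion_injective _
      have h2 : Function.Surjective g := e.surjective.comp f.range.mkQ_surjective
      have h3 : Function.Exact f g :=
        LinearMap.exact_iff.mpr ((e.ker_comp f.range.mkQ).trans f.range.ker_mkQ)
      let _ := Ideal.Quotient.field m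
      rw [Module.length_eq_add_of_exact (f.restrictScalars A) (g.restrictScalars A)
        (by simpa) (by simpa) (by simpa), hi, Module.length_eq_of_surjective (h m hm),
        Module.length_eq_one]
      simp
  · have : ¬ IsFiniteLength A M := by
      contrapose! hM
      rw [isFiniteLength_iff_isNoetherian_isArtinian] at hM ⊢
      exact hM.imp (isNoetherian_of_tower A) (isArtinian_of_tower A)
    rw [← Module.length_ne_top_iff, not_ne_iff] at hM this
    rw [hM, this]

noncomputable def lam {T : Type} [CommRing T] (I : Ideal T) (M : Type) [AddCommGroup M]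
    [Module T M] (n : ℕ) : ℕ∞ := Module.length T (M ⧸ (I ^ n • ⊤ : Submodule T M))

section
variable {T : Type} [CommRing T] (I : Ideal T) {M N P : Type} [AddCommGroup M] [Module T M]
  [AddCommGroup N] [Module T N] [AddCommGroup P] [Module T P]

lemma smul_le_comap (f : N →ₗ[T] M) (n : ℕ) :
    (I ^ n • ⊤ : Submodule T N) ≤ (I ^ n • ⊤ : Submodule T M).comap f := by
  rw [← Submodule.map_le_iff_le_comap, Submodule.map_smul'']
  exact Submodule.smul_mono le_rfl le_top

lemma len_quot_le {p q : Submodule T M} (h : p ≤ q) :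
    Module.length T (M ⧸ q) ≤ Module.length T (M ⧸ p) :=
  Module.length_le_of_surjective (Submodule.factor h) (Submodule.factor_surjective h)

lemma lam_gen {ι : Type} [Fintype ι] (φ : ι → N →ₗ[T] M)
    (hφ : ∀ x : M, ∃ y : ι → N, x = ∑ i, φ i (y i)) (n : ℕ) :
    lam I M n ≤ Fintype.card ι * lam I N n := by
  let Φ : (ι → N ⧸ (I ^ n • ⊤ : Submodule T N)) →ₗ[T] M ⧸ (I ^ n • ⊤ : Submodule T M) :=
    ∑ i, (Submodule.mapQ _ _ (φ i) (smul_le_comap I (φ i) n)).comp (LinearMap.proj i)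
  have hΦ : Function.Surjective Φ := by
    intro x
    obtain ⟨x, rfl⟩ := Submodule.mkQ_surjective _ x
    obtain ⟨y, rfl⟩ := hφ x
    refine ⟨fun i => Submodule.mkQ _ (y i), ?_⟩
    simp only [Φ, LinearMap.sum_apply, map_sum]
    rfl
  refine (Module.length_le_of_surjective Φ hΦ).trans (le_of_eq ?_)
  rw [Module.length_pi_of_fintype]
  simp [lam]

lemma lam_surj (g : M →ₗ[T] P) (hg : Function.Surjective g) (n : ℕ) :
    lam I P n ≤ lam I M n := by
  simpa using lam_gen I (ι := Unit) (fun _ => g) (fun x => by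
    obtain ⟨y, rfl⟩ := hg x
    exact ⟨fun _ => y, by simp⟩) n

lemma lam_congr (e : M ≃ₗ[T] P) : lam I M = lam I P := funext fun n =>
  le_antisymm (lam_surj I e.symm.toLinearMap e.symm.surjective n)
    (lam_surj I e.toLinearMap e.surjective n)

lemma lam_exact (f : N →ₗ[T] M) (g : M →ₗ[T] P) (hg : Function.Surjective g)
    (H : Function.Exact f g) (n : ℕ) : lam I M n =
      Module.length T (N ⧸ (I ^ n • ⊤ : Submodule T M).comap f) + lam I P n := by
  refine Module.length_eq_add_of_exact (Submodule.mapQ _ _ f le_rfl)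
    (Submodule.mapQ _ _ g (smul_le_comap I g n)) ?_ ?_ ?_
  · rw [← LinearMap.ker_eq_bot, Submodule.ker_mapQ, Submodule.mkQ_map_self]
  · intro x
    obtain ⟨x, rfl⟩ := Submodule.mkQ_surjective _ x
    obtain ⟨y, rfl⟩ := hg x
    exact ⟨Submodule.mkQ _ y, rfl⟩
  · intro x
    obtain ⟨x, rfl⟩ := Submodule.mkQ_surjective _ x
    constructor
    · intro hx
      have h1 : g x ∈ (I ^ n • ⊤ : Submodule T P) := (Submodule.Quotient.mk_eq_zero _).mp hx
      rw [← LinearMap.range_eq_top.mpr hg, ← Submodule.map_top, ← Submodule.map_smul''] at h1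
      obtain ⟨y, hy, hy'⟩ := h1
      obtain ⟨z, hz⟩ := (H (x - y)).mp (by rw [map_sub, hy', sub_self])
      refine ⟨Submodule.mkQ _ z, ?_⟩
      show Submodule.mkQ _ (f z) = _
      rw [hz, map_sub, Submodule.mkQ_apply _ y, (Submodule.Quotient.mk_eq_zero _).mpr hy, sub_zero]
    · rintro ⟨z, hz⟩
      obtain ⟨z, rfl⟩ := Submodule.mkQ_surjective _ z
      rw [← hz]
      show Submodule.mkQ _ (g (f z)) = 0
      rw [H.apply_apply_eq_zero, map_zero]

lemma lam_sub (f : N →ₗ[T] M) (g : M →ₗ[T] P) (hg : Function.Surjective g)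
    (H : Function.Exact f g) (n : ℕ) : lam I M n ≤ lam I N n + lam I P n := by
  rw [lam_exact I f g hg H]
  exact add_le_add_left (len_quot_le (smul_le_comap I f n)) _

lemma lam_AR [IsNoetherianRing T] [Module.Finite T M] (f : N →ₗ[T] M) (g : M →ₗ[T] P)
    (hf : Function.Injective f) (hg : Function.Surjective g) (H : Function.Exact f g) :
    ∃ C : ℕ, ∀ n, C ≤ n → lam I N (n - C) + lam I P n ≤ lam I M n := by
  obtain ⟨C, hC⟩ := I.exists_pow_inf_eq_pow_smul (LinearMap.range f)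
  refine ⟨C, fun n hn => ?_⟩
  rw [lam_exact I f g hg H]
  refine add_le_add_left (len_quot_le fun x hx => ?_) _
  have h1 : f x ∈ I ^ n • ⊤ ⊓ LinearMap.range f := ⟨hx, x, rfl⟩
  rw [hC n hn] at h1
  have h2 : f x ∈ I ^ (n - C) • LinearMap.range f :=
    Submodule.smul_mono le_rfl inf_le_right h1
  rw [← Submodule.map_top, ← Submodule.map_smul''] at h2
  obtain ⟨y, hy, hy'⟩ := h2
  rwa [← hf hy']

end

lemma lam_tower {A B : Type} [CommRing A] [CommRing B] [Algebra A B]
    (h : ∀ m : Ideal B, m.IsMaximal → Function.Surjective (algebraMap A (B ⧸ m))) (I : Ideal A)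
    (M : Type) [AddCommGroup M] [Module A M] [Module B M] [IsScalarTower A B M] :
    lam I M = lam (I.map (algebraMap A B)) M := by
  funext n
  unfold lam
  rw [← len_eq h, ← Ideal.map_pow,
    ← (Submodule.Quotient.restrictScalarsEquiv A
      ((I ^ n).map (algebraMap A B) • ⊤ : Submodule B M)).length_eq,
    Submodule.restrictScalars_map_smul_eq, Submodule.restrictScalars_top]

def UB (d : ℕ) (f : ℕ → ℕ∞) (ρ : ℝ) : Prop :=
  ∀ ρ', ρ < ρ' → ∀ᶠ n in atTop, ∃ m : ℕ, f n ≤ m ∧ (d.factorial * m : ℝ) ≤ ρ' * (n : ℝ) ^ d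

def LB (d : ℕ) (f : ℕ → ℕ∞) (ρ : ℝ) : Prop :=
  ∀ ρ', ρ' < ρ → ∀ᶠ n in atTop, ∃ m : ℕ, (m : ℕ∞) ≤ f n ∧ ρ' * (n : ℝ) ^ d ≤ d.factorial * m

lemma ev (a b : ℝ) (d : ℕ) :
    Tendsto (fun n : ℕ => (a * n + b) ^ d / (n : ℝ) ^ d) atTop (𝓝 (a ^ d)) := by
  have h1 : Tendsto (fun n : ℕ => (a + b / (n : ℝ)) ^ d) atTop (𝓝 ((a + 0) ^ d)) :=
    (tendsto_const_nhds.add (tendsto_const_div_atTop_nhds_zero_nat b)).pow d
  rw [add_zero] at h1
  refine h1.congr' ?_
  filter_upwards [eventually_gt_atTop 0] with n hn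
  have : (n : ℝ) ≠ 0 := by exact_mod_cast hn.ne'
  rw [← div_pow]; congr 1; field_simp

variable {d : ℕ}

lemma UB.mono {f g : ℕ → ℕ∞} {ρ : ℝ} (h : UB d g ρ) (hfg : ∀ n, f n ≤ g n) : UB d f ρ := by
  intro ρ' hρ
  filter_upwards [h ρ' hρ] with n ⟨m, h1, h2⟩
  exact ⟨m, (hfg n).trans h1, h2⟩

lemma UB.add {f g : ℕ → ℕ∞} {ρ σ : ℝ} (hf : UB d f ρ) (hg : UB d g σ) :
    UB d (fun n => f n + g n) (ρ + σ) := by
  intro ρ' hρ
  filter_upwards [hf (ρ + (ρ' - ρ - σ) / 2) (by linarith), hg (σ + (ρ' - ρ - σ) / 2) (by linarith)]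
    with n ⟨m, h1, h2⟩ ⟨m', h1', h2'⟩
  refine ⟨m + m', by push_cast; exact add_le_add h1 h1', ?_⟩
  push_cast
  linarith

lemma UB.zero : UB d (fun _ => 0) 0 := by
  intro ρ' hρ
  exact Eventually.of_forall fun n => ⟨0, le_rfl, by simp; positivity⟩

lemma UB.nmul {f : ℕ → ℕ∞} {ρ : ℝ} (hf : UB d f ρ) (r : ℕ) :
    UB d (fun n => r * f n) (r * ρ) := by
  induction r with
  | zero => simpa using UB.zero
  | succ r ih => simpa [add_mul] using ih.add hf

lemma LB.zero (f : ℕ → ℕ∞) : LB d f 0 := by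
  intro ρ' hρ
  refine Eventually.of_forall fun n => ⟨0, zero_le, ?_⟩
  simp only [Nat.cast_zero, mul_zero]
  exact mul_nonpos_of_nonpos_of_nonneg hρ.le (by positivity)

lemma LB.shift {f : ℕ → ℕ∞} {ρ : ℝ} (hf : LB d f ρ) (C : ℕ) : LB d (fun n => f (n - C)) ρ := by
  intro ρ' hρ
  by_cases h0 : ρ' < 0
  · exact LB.zero _ ρ' h0
  obtain ⟨σ, h1, h2⟩ := exists_between hρ
  have h3 := (ev 1 (-C) d).const_mul σ
  rw [one_pow, mul_one] at h3
  filter_upwards [(tendsto_sub_atTop_nat C).eventually (hf σ h2), h3.eventually (lt_mem_nhds h1),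
    eventually_gt_atTop C] with n ⟨m, h4, h5⟩ h6 h7
  refine ⟨m, h4, le_trans ?_ h5⟩
  have hn : (0 : ℝ) < n := by exact_mod_cast (Nat.zero_le C).trans_lt h7
  rw [← mul_div_assoc, lt_div_iff₀ (by positivity), one_mul] at h6
  rw [Nat.cast_sub h7.le, sub_eq_add_neg]
  exact h6.le

lemma LB.add {f g h : ℕ → ℕ∞} {ρ σ : ℝ} (hf : LB d f ρ) (hg : LB d g σ) (C : ℕ)
    (hh : ∀ n, C ≤ n → f (n - C) + g n ≤ h n) : LB d h (ρ + σ) := by
  intro ρ' hρ
  filter_upwards [hf.shift C (ρ - (ρ + σ - ρ') / 2) (by linarith),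
    hg (σ - (ρ + σ - ρ') / 2) (by linarith), eventually_ge_atTop C]
    with n ⟨m, h1, h2⟩ ⟨m', h1', h2'⟩ hn
  refine ⟨m + m', le_trans (by push_cast; exact add_le_add h1 h1') (hh n hn), ?_⟩
  push_cast
  linarith

end Pool.Agent.H.MP_286f1f_ag
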