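import Mathlib

set_option autoImplicit false

namespace Pool.Agent.H.MP_286f1f_ag

open Finset

lemma exists_E (d : ℕ) : ∃ E : (Fin d → ℤ) → ℝ, (∀ g, 0 < E g) ∧ (∀ g h, E (g + h) = E g * E h) ∧
    Function.Injective E ∧ ∀ η : ℝ, 0 < η → {g | 0 ≤ g ∧ η < E g}.Finite := by
  obtain ⟨w, hw⟩ := exists_linearIndependent_of_le_rank (R := ℚ) (M := ℝ) (n := d) (by
    rw [Real.rank_rat_real]; exact Cardinal.nat_lt_continuum d |>.le)
  have hw0 : ∀ i, 0 < |w i| := fun i => abs_pos.mpr (hw.ne_zero i)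
  refine ⟨fun g => Real.exp (-∑ i, |w i| * g i), fun g => Real.exp_pos _, fun g h => ?_,
    fun g h hgh => ?_, fun η hη => ?_⟩
  · rw [← Real.exp_add, ← neg_add, ← Finset.sum_add_distrib]
    refine congrArg (fun t => Real.exp (-t)) ?_
    exact Finset.sum_congr rfl fun i _ => by rw [Pi.add_apply]; push_cast; ring
  · have h1 := neg_injective (Real.exp_injective hgh)
    have h2 := Fintype.linearIndependent_iff.mp hw
      (fun i => (if 0 ≤ w i then 1 else -1) * ((g i : ℚ) - h i)) (by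
        rw [← sub_eq_zero, ← Finset.sum_sub_distrib] at h1
        refine Eq.trans (Finset.sum_congr rfl fun i _ => ?_) h1
        rw [Rat.smul_def]
        split_ifs with h3
        · rw [abs_of_nonneg h3]; push_cast; ring
        · rw [abs_of_neg (not_le.mp h3)]; push_cast; ring)
    funext i
    have h4 := h2 i
    have h5 : (g i : ℚ) - h i = 0 := by
      split_ifs at h4 <;> linarith
    exact_mod_cast sub_eq_zero.mp h5
  · refine (Set.Finite.pi' (t := fun i => Set.Icc (0 : ℤ) ⌈-Real.log η / |w i|⌉)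
      fun i => Set.finite_Icc _ _).subset ?_
    rintro g ⟨hg0, hg⟩ i
    refine ⟨hg0 i, ?_⟩
    have h1 : Real.log η < -∑ i, |w i| * g i := (Real.log_lt_iff_lt_exp hη).mpr hg
    have h2 : |w i| * g i ≤ ∑ i, |w i| * g i :=
      Finset.single_le_sum (f := fun i => |w i| * (g i : ℝ))
        (fun i _ => mul_nonneg (abs_nonneg _) (by exact_mod_cast hg0 i)) (mem_univ i)
    have h3 : (g i : ℝ) ≤ -Real.log η / |w i| := by
      rw [le_div_iff₀ (hw0 i)]; linarith
    exact_mod_cast h3.trans (Int.le_ceil _)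

lemma spec {K L : Type} [Field K] [Field L] [Algebra K L] [FiniteDimensional K L]
    (v : Valuation K NNReal) : ∃ n : L → ℝ, n 0 = 0 ∧ (∀ x, x ≠ 0 → 0 < n x) ∧
      (∀ x y, n (x + y) ≤ max (n x) (n y)) ∧ (∀ x y, n (x * y) ≤ n x * n y) ∧
      (∀ x (m : ℕ), n (x ^ m) = n x ^ m) ∧ (∀ (a : K) x, n (a • x) = v a * n x) ∧
      ∀ z, z ≠ 0 → ∃ i < (minpoly K z).natDegree, (minpoly K z).coeff i ≠ 0 ∧
        n z ^ ((minpoly K z).natDegree - i) = v ((minpoly K z).coeff i) := by
  let av : AbsoluteValue K ℝ :=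
    { toFun := fun a => v a
      map_mul' := fun a b => by simp
      nonneg' := fun a => (v a).2
      eq_zero' := fun a => by simp
      add_le' := fun a b => by
        have h1 : (v (a + b) : ℝ) ≤ max (v a : ℝ) (v b) := by exact_mod_cast v.map_add a b
        exact h1.trans (max_le (le_add_of_nonneg_right (v b).2) (le_add_of_nonneg_left (v a).2)) }
  let _ : NormedField K := av.toNormedField
  have hn : ∀ a : K, ‖a‖ = v a := fun a => rfl
  have : IsUltrametricDist K := IsUltrametricDist.isUltrametricDist_of_isNonarchimedean_norm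
    fun a b => by rw [hn, hn, hn]; exact_mod_cast v.map_add a b
  have halg : ∀ x : L, IsAlgebraic K x := fun x => Algebra.IsAlgebraic.isAlgebraic x
  refine ⟨spectralNorm K L, spectralNorm_zero, fun x hx => spectralNorm_zero_lt hx (halg x),
    isNonarchimedean_spectralNorm, fun x y => spectralNorm_mul (halg x) (halg y), fun x m => ?_,
    fun a x => spectralNorm_smul a (halg x), fun z hz => ?_⟩
  · rcases Nat.eq_zero_or_pos m with rfl | hm
    · rw [pow_zero, pow_zero, spectralNorm_one]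
    · exact isPowMul_spectralNorm x hm
  · have hpos := spectralNorm_zero_lt hz (halg z)
    obtain ⟨i, hi⟩ : ∃ i, spectralValueTerms (minpoly K z) i = spectralNorm K L z :=
      (Set.range_nonempty _).csSup_mem (spectralValueTerms_finite_range _)
    have hlt : i < (minpoly K z).natDegree := by
      by_contra h
      rw [spectralValueTerms_of_natDegree_le _ (not_lt.mp h)] at hi
      exact hpos.ne hi
    rw [spectralValueTerms_of_lt_natDegree _ hlt] at hi
    have h1 : spectralNorm K L z ^ ((minpoly K z).natDegree - i) = v ((minpoly K z).coeff i) := by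
      rw [← hi, ← Nat.cast_sub hlt.le, one_div,
        Real.rpow_inv_natCast_pow (norm_nonneg _) (Nat.sub_ne_zero_of_lt hlt), hn]
    refine ⟨i, hlt, fun h => ?_, h1⟩
    rw [h, map_zero] at h1
    exact (pow_pos hpos _).ne' h1

variable {d : ℕ} {k : Type} [Field k]

open MvPowerSeries

lemma exists_val (E : (Fin d → ℤ) → ℝ) (hE0 : ∀ g, 0 < E g) (hE1 : ∀ g h, E (g + h) = E g * E h)
    (hE2 : Function.Injective E) (hE3 : ∀ η : ℝ, 0 < η → {g | 0 ≤ g ∧ η < E g}.Finite) :
    ∃ v : Valuation (MvPowerSeries (Fin d) k) NNReal,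
      (∀ f γ, coeff γ f ≠ 0 → E (fun i => γ i) ≤ v f) ∧
      ∀ f, f ≠ 0 → ∃ γ, coeff γ f ≠ 0 ∧ (v f : ℝ) = E (fun i => γ i) := by
  classical
  let E' : (Fin d →₀ ℕ) → ℝ := fun γ => E (fun i => γ i)
  have hinj : Function.Injective fun (γ : Fin d →₀ ℕ) (i : Fin d) => (γ i : ℤ) := by
    intro a b h
    ext i
    have : (a i : ℤ) = b i := congrFun h i
    exact_mod_cast this
  have hE'2 : Function.Injective E' := hE2.comp hinj
  have hE'1 : ∀ a b, E' (a + b) = E' a * E' b := fun a b => by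
    simp only [E']
    rw [← hE1]; congr 1
  have hlead : ∀ f : MvPowerSeries (Fin d) k, f ≠ 0 → ∃ γ, coeff γ f ≠ 0 ∧
      ∀ γ', coeff γ' f ≠ 0 → E' γ' ≤ E' γ := by
    intro f hf
    obtain ⟨γ0, h0⟩ : ∃ γ, coeff γ f ≠ 0 := by
      by_contra h
      push Not at h
      exact hf (MvPowerSeries.ext h)
    have hfin : {γ : Fin d →₀ ℕ | coeff γ f ≠ 0 ∧ E' γ0 / 2 < E' γ}.Finite := by
      refine ((hE3 (E' γ0 / 2) (half_pos (hE0 _))).preimage hinj.injOn).subset ?_
      rintro γ ⟨-, h⟩
      exact ⟨fun i => by simp, h⟩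
    obtain ⟨γ, hγ, hmax⟩ := hfin.exists_maximalFor E' _ ⟨γ0, h0, half_lt_self (hE0 _)⟩
    refine ⟨γ, hγ.1, fun γ' h => ?_⟩
    by_contra hlt
    push Not at hlt
    exact absurd (hmax (j := γ') ⟨h, hγ.2.trans hlt⟩ hlt.le) (not_le.mpr hlt)
  choose! ld hl1 hl2 using hlead
  let v0 : MvPowerSeries (Fin d) k → NNReal := fun f =>
    if f = 0 then 0 else (E' (ld f)).toNNReal
  have hv2 : ∀ f, f ≠ 0 → (v0 f : ℝ) = E' (ld f) := fun f hf => by
    simp only [v0]
    rw [if_neg hf, Real.coe_toNNReal _ (hE0 _).le]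
  have hv1 : ∀ f γ, coeff γ f ≠ 0 → E' γ ≤ v0 f := by
    intro f γ h
    have hf : f ≠ 0 := by rintro rfl; simp at h
    rw [hv2 f hf]
    exact hl2 f hf γ h
  have hv3 : ∀ f (t : NNReal), (∀ γ, coeff γ f ≠ 0 → E' γ ≤ t) → v0 f ≤ t := by
    intro f t h
    by_cases hf : f = 0
    · simp [v0, hf]
    · rw [← NNReal.coe_le_coe, hv2 f hf]; exact h _ (hl1 f hf)
  have hmul : ∀ f g, v0 (f * g) = v0 f * v0 g := by
    intro f g
    by_cases hf : f = 0
    · simp [v0, hf]
    by_cases hg : g = 0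
    · simp [v0, hg]
    apply le_antisymm
    · refine hv3 _ _ fun γ h => ?_
      rw [coeff_mul] at h
      obtain ⟨p, hp, hp'⟩ := Finset.exists_ne_zero_of_sum_ne_zero h
      rw [← Finset.HasAntidiagonal.mem_antidiagonal.mp hp, hE'1, NNReal.coe_mul]
      exact mul_le_mul (hv1 _ _ (left_ne_zero_of_mul hp')) (hv1 _ _ (right_ne_zero_of_mul hp'))
        (hE0 _).le (v0 f).2
    · rw [← NNReal.coe_le_coe, NNReal.coe_mul, hv2 f hf, hv2 g hg, ← hE'1]
      refine hv1 _ _ ?_
      rw [coeff_mul, Finset.sum_eq_single (ld f, ld g)]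
      · exact mul_ne_zero (hl1 f hf) (hl1 g hg)
      · intro p hp hne
        by_contra h
        have h1 := hl2 f hf _ (left_ne_zero_of_mul h)
        have h2 := hl2 g hg _ (right_ne_zero_of_mul h)
        have h3 := Finset.HasAntidiagonal.mem_antidiagonal.mp hp
        have h4 : E' p.1 * E' p.2 = E' (ld f) * E' (ld g) := by rw [← hE'1, ← hE'1, h3]
        have h5 : E' p.1 = E' (ld f) := by
          by_contra h6
          have := mul_lt_mul (lt_of_le_of_ne h1 h6) h2 (hE0 _) (hE0 _).le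
          exact this.ne h4
        have h6 := hE'2 h5
        rw [h6] at h3
        exact hne (Prod.ext h6 (add_left_cancel h3))
      · intro h
        exact absurd (by simp) h
  have hzero : v0 0 = 0 := by simp [v0]
  clear_value v0
  have hone : v0 1 = 1 := by
    have h1 := hmul 1 1
    rw [mul_one] at h1
    have h2 : v0 1 ≠ 0 := by
      intro h
      have := hv2 1 one_ne_zero
      rw [h] at this
      exact (hE0 _).ne this
    exact (mul_eq_left₀ h2).mp h1.symm
  have hadd : ∀ f g, v0 (f + g) ≤ max (v0 f) (v0 g) := by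
    intro f g
    refine hv3 _ _ fun γ h => ?_
    rw [map_add] at h
    rw [NNReal.coe_max]
    by_cases h1 : coeff γ f = 0
    · rw [h1, zero_add] at h
      exact (hv1 _ _ h).trans (le_max_right _ _)
    · exact (hv1 _ _ h1).trans (le_max_left _ _)
  exact ⟨⟨⟨⟨v0, hzero⟩, hone, hmul⟩, hadd⟩, hv1, fun f hf => ⟨ld f, hl1 f hf, hv2 f hf⟩⟩

end Pool.Agent.H.MP_286f1f_ag
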