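import Mathlib

set_option autoImplicit false

namespace Pool.Agent.H.MP_286f1f_ag

open Finset

structure Data (d : ℕ) (k K L : Type) [Field k] [Field K] [Field L] [Algebra k K]
    [Algebra K L] where
  n : L → ℝ
  v : K → ℝ
  Y : (Fin d → ℤ) → K
  E : (Fin d → ℤ) → ℝ
  e : ℕ
  A : Subring K
  S : Subring L
  n_zero : n 0 = 0
  n_pos : ∀ x, x ≠ 0 → 0 < n x
  n_add : ∀ x y, n (x + y) ≤ max (n x) (n y)
  n_mul : ∀ x y, n (x * y) ≤ n x * n y
  n_pow : ∀ x (m : ℕ), n (x ^ m) = n x ^ m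
  n_smul : ∀ (a : K) x, n (a • x) = v a * n x
  v_k : ∀ c : k, c ≠ 0 → v (algebraMap k K c) = 1
  Y_add : ∀ g h, Y (g + h) = Y g * Y h
  Y_zero : Y 0 = 1
  v_Y : ∀ g, v (Y g) = E g
  E_inj : Function.Injective E
  E_fin : ∀ η : ℝ, 0 < η → {g | 0 ≤ g ∧ η < E g}.Finite
  e_pos : 0 < e
  lt : ∀ a : K, a ≠ 0 → ∃ (c : k) (g : Fin d → ℤ), v (a - algebraMap k K c * Y g) < v a
  val : ∀ z : L, z ≠ 0 → ∃ g, n z ^ e = E g
  valS : ∀ z ∈ S, z ≠ 0 → ∃ g, 0 ≤ g ∧ n z ^ e = E g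
  k_mem : ∀ c, algebraMap k K c ∈ A
  Y_mem : ∀ g, 0 ≤ g → Y g ∈ A
  smul_mem : ∀ a ∈ A, ∀ z ∈ S, a • z ∈ S
  frac : ∀ z : L, ∃ a ∈ A, a ≠ 0 ∧ a • z ∈ S
  fracK : ∀ a : K, ∃ b ∈ A, b ≠ 0 ∧ b * a ∈ A
  complete : ∀ a : ℕ → K, (∀ j, a j ∈ A) → ∀ t : ℝ, (∀ j, v (a j) ≤ t / 2 ^ j) →
    ∃ s ∈ A, ∀ N, v (s - ∑ j ∈ range N, a j) ≤ t / 2 ^ N
  supp : ∀ (q : ℕ) (f : Fin d → K), (∀ i, f i ∈ A) → ∑ i, Y (Pi.single i (q : ℤ)) * f i ≠ 0 →
    ∃ g i, (q : ℤ) ≤ g i ∧ v (∑ i, Y (Pi.single i (q : ℤ)) * f i) = E g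

variable {d : ℕ} {k K L : Type} [Field k] [Field K] [Field L] [Algebra k K] [Algebra K L]
  (D : Data d k K L)

namespace Data

lemma n_nonneg (x : L) : 0 ≤ D.n x := by
  by_cases h : x = 0
  · rw [h, D.n_zero]
  · exact (D.n_pos x h).le

lemma n_one : D.n 1 = 1 := by simpa using D.n_pow 1 0

lemma v_eq (a : K) : D.v a = D.n (a • (1 : L)) := by rw [D.n_smul, D.n_one, mul_one]

lemma v_nonneg (a : K) : 0 ≤ D.v a := by rw [D.v_eq]; exact D.n_nonneg _

lemma v_zero : D.v 0 = 0 := by rw [D.v_eq, zero_smul, D.n_zero]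

lemma v_pos {a : K} (h : a ≠ 0) : 0 < D.v a := by
  rw [D.v_eq]; exact D.n_pos _ (smul_ne_zero h one_ne_zero)

lemma v_mul (a b : K) : D.v (a * b) = D.v a * D.v b := by
  rw [D.v_eq, mul_smul, D.n_smul, ← D.v_eq]

lemma v_one : D.v 1 = 1 := by rw [D.v_eq, one_smul, D.n_one]

lemma v_inv (a : K) : D.v a⁻¹ = (D.v a)⁻¹ := by
  by_cases h : a = 0
  · simp [h, D.v_zero]
  · have := D.v_mul a a⁻¹
    rw [mul_inv_cancel₀ h, D.v_one] at this
    exact (eq_inv_of_mul_eq_one_right this.symm)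

lemma v_add (a b : K) : D.v (a + b) ≤ max (D.v a) (D.v b) := by
  rw [D.v_eq, D.v_eq a, D.v_eq b, add_smul]; exact D.n_add _ _

lemma v_neg_one : D.v (-1) = 1 := by
  simpa using D.v_k (-1) (by simp)

lemma n_neg (x : L) : D.n (-x) = D.n x := by
  have := D.n_smul (-1) x
  rwa [D.v_neg_one, one_mul, neg_one_smul] at this

lemma v_neg (a : K) : D.v (-a) = D.v a := by
  rw [D.v_eq, neg_smul, D.n_neg, ← D.v_eq]

lemma v_k_le (c : k) : D.v (algebraMap k K c) ≤ 1 := by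
  by_cases h : c = 0
  · simp [h, D.v_zero]
  · exact (D.v_k c h).le

lemma n_sub (x y : L) : D.n (x - y) ≤ max (D.n x) (D.n y) := by
  rw [sub_eq_add_neg, ← D.n_neg y]; exact D.n_add _ _

lemma n_add_lt {x y : L} {t : ℝ} (hx : D.n x < t) (hy : D.n y < t) : D.n (x + y) < t :=
  (D.n_add x y).trans_lt (max_lt hx hy)

lemma n_add_le {x y : L} {t : ℝ} (hx : D.n x ≤ t) (hy : D.n y ≤ t) : D.n (x + y) ≤ t :=
  (D.n_add x y).trans (max_le hx hy)

lemma n_sub_lt {x y : L} {t : ℝ} (hx : D.n x < t) (hy : D.n y < t) : D.n (x - y) < t :=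
  (D.n_sub x y).trans_lt (max_lt hx hy)

lemma n_sub_le {x y : L} {t : ℝ} (hx : D.n x ≤ t) (hy : D.n y ≤ t) : D.n (x - y) ≤ t :=
  (D.n_sub x y).trans (max_le hx hy)

lemma n_eq_of_lt {x y : L} (h : D.n (x - y) < D.n x) : D.n y = D.n x := by
  apply le_antisymm
  · have : y = x - (x - y) := by ring
    rw [this]; exact D.n_sub_le le_rfl h.le
  · by_contra hh
    have h2 : D.n ((x - y) + y) < D.n x := D.n_add_lt h (not_le.mp hh)
    simp at h2

lemma n_sum_le {ι : Type} (s : Finset ι) (f : ι → L) {t : ℝ} (ht : 0 ≤ t)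
    (h : ∀ i ∈ s, D.n (f i) ≤ t) : D.n (∑ i ∈ s, f i) ≤ t := by
  refine Finset.sum_induction f (fun x => D.n x ≤ t) (fun a b => D.n_add_le) ?_ h
  rw [D.n_zero]; exact ht

lemma n_sum_lt {ι : Type} (s : Finset ι) (f : ι → L) {t : ℝ} (ht : 0 < t)
    (h : ∀ i ∈ s, D.n (f i) < t) : D.n (∑ i ∈ s, f i) < t := by
  refine Finset.sum_induction f (fun x => D.n x < t) (fun a b => D.n_add_lt) ?_ h
  rw [D.n_zero]; exact ht

lemma v_sum_le {ι : Type} (s : Finset ι) (f : ι → K) {t : ℝ} (ht : 0 ≤ t)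
    (h : ∀ i ∈ s, D.v (f i) ≤ t) : D.v (∑ i ∈ s, f i) ≤ t := by
  refine Finset.sum_induction f (fun x => D.v x ≤ t)
    (fun a b ha hb => (D.v_add a b).trans (max_le ha hb)) ?_ h
  rw [D.v_zero]; exact ht

lemma Y_ne (g : Fin d → ℤ) : D.Y g ≠ 0 := by
  intro h
  have := D.Y_add g (-g)
  rw [add_neg_cancel, D.Y_zero, h, zero_mul] at this
  exact one_ne_zero this

lemma E_pos (g : Fin d → ℤ) : 0 < D.E g := by rw [← D.v_Y]; exact D.v_pos (D.Y_ne g)

lemma E_add (g h : Fin d → ℤ) : D.E (g + h) = D.E g * D.E h := by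
  rw [← D.v_Y, D.Y_add, D.v_mul, D.v_Y, D.v_Y]

lemma E_zero : D.E 0 = 1 := by rw [← D.v_Y, D.Y_zero, D.v_one]

lemma E_nsmul (m : ℕ) (g : Fin d → ℤ) : D.E (m • g) = D.E g ^ m := by
  induction m with
  | zero => simp [D.E_zero]
  | succ m ih => rw [succ_nsmul, D.E_add, ih, pow_succ]

lemma Y_nsmul (m : ℕ) (g : Fin d → ℤ) : D.Y (m • g) = D.Y g ^ m := by
  induction m with
  | zero => simp [D.Y_zero]
  | succ m ih => rw [succ_nsmul, D.Y_add, ih, pow_succ]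

lemma lt' {a : K} (ha : a ≠ 0) : ∃ (c : k) (g : Fin d → ℤ), c ≠ 0 ∧ D.v a = D.E g ∧
    D.v (a - algebraMap k K c * D.Y g) < D.v a := by
  obtain ⟨c, g, h⟩ := D.lt a ha
  have hc : c ≠ 0 := by
    rintro rfl
    simp at h
  refine ⟨c, g, hc, ?_, h⟩
  have h1 : D.n (a • (1 : L) - (algebraMap k K c * D.Y g) • (1 : L)) < D.n (a • (1 : L)) := by
    rw [← sub_smul, ← D.v_eq, ← D.v_eq]; exact h
  have h2 := D.n_eq_of_lt h1
  rw [← D.v_eq, ← D.v_eq, D.v_mul, D.v_k c hc, one_mul, D.v_Y] at h2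
  exact h2.symm

/-- orthogonal finite families -/
def Orth (B : Finset L) : Prop :=
  (∀ b ∈ B, b ≠ 0) ∧ ∀ a : L → K, ∀ b ∈ B, D.n (a b • b) ≤ D.n (∑ x ∈ B, a x • x)

lemma Orth.card_le [FiniteDimensional K L] {B : Finset L} (h : D.Orth B) :
    B.card ≤ Module.finrank K L := by
  classical
  have hli : LinearIndepOn K id (B : Set L) := by
    rw [linearIndepOn_finset_iff]
    intro f hf i hi
    have := h.2 f i hi
    simp only [id] at hf
    rw [hf, D.n_zero] at this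
    by_contra hne
    exact absurd (D.n_pos _ (smul_ne_zero hne (h.1 i hi))) (not_lt.mpr this)
  exact hli.finset_card_le_finrank

lemma maxOrth [FiniteDimensional K L] (Z : Set L) (hZ : ∀ z ∈ Z, z ≠ 0) :
    ∃ B : Finset L, (∀ b ∈ B, b ∈ Z) ∧ D.Orth B ∧
      ∀ z ∈ Z, ∃ a : L → K, D.n (z - ∑ x ∈ B, a x • x) < D.n z := by
  classical
  let P : ℕ → Prop := fun m => ∃ B : Finset L, (∀ b ∈ B, b ∈ Z) ∧ D.Orth B ∧ B.card = m
  have h0 : P 0 := ⟨∅, by simp, ⟨by simp, by simp⟩, rfl⟩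
  obtain ⟨B, hB1, hB2, hB3⟩ : P (Nat.findGreatest P (Module.finrank K L)) :=
    Nat.findGreatest_spec (Nat.zero_le _) h0
  refine ⟨B, hB1, hB2, fun z hz => ?_⟩
  by_contra hcon
  push Not at hcon
  have hzB : z ∉ B := by
    intro hzB
    have := hcon (Pi.single z 1)
    rw [Finset.sum_eq_single z (fun b _ hb => by simp [Pi.single_eq_of_ne hb])
      (fun h => absurd hzB h)] at this
    simp only [Pi.single_eq_same, one_smul, sub_self, D.n_zero] at this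
    exact absurd (D.n_pos z (hZ z hz)) (not_lt.mpr this)
  have hO : D.Orth (insert z B) := by
    refine ⟨fun b hb => ?_, fun a b hb => ?_⟩
    · rcases Finset.mem_insert.mp hb with rfl | hb
      · exact hZ _ hz
      · exact hB2.1 b hb
    · rw [Finset.sum_insert hzB]
      have h1 : D.n (a z • z) ≤ D.n (a z • z + ∑ x ∈ B, a x • x) := by
        by_cases ha : a z = 0
        · rw [ha, zero_smul, D.n_zero]; exact D.n_nonneg _
        · have := hcon (fun x => - (a z)⁻¹ * a x)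
          have h2 : a z • z + ∑ x ∈ B, a x • x =
              a z • (z - ∑ x ∈ B, (- (a z)⁻¹ * a x) • x) := by
            rw [smul_sub, Finset.smul_sum, sub_eq_add_neg, ← Finset.sum_neg_distrib]
            congr 1
            refine Finset.sum_congr rfl fun x _ => ?_
            rw [smul_smul, ← neg_smul]
            congr 1
            field_simp
          rw [h2, D.n_smul, D.n_smul]
          exact mul_le_mul_of_nonneg_left this (D.v_nonneg _)
      rcases Finset.mem_insert.mp hb with rfl | hb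
      · exact h1
      · refine (hB2.2 a b hb).trans ?_
        have h3 : ∑ x ∈ B, a x • x = (a z • z + ∑ x ∈ B, a x • x) - a z • z := by ring
        conv_lhs => rw [h3]
        exact D.n_sub_le le_rfl h1
  have hP : P (B.card + 1) := ⟨insert z B, fun b hb => by
    rcases Finset.mem_insert.mp hb with rfl | hb
    · exact hz
    · exact hB1 b hb, hO, Finset.card_insert_of_notMem hzB⟩
  have hle := hO.card_le
  rw [Finset.card_insert_of_notMem hzB] at hle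
  have := Nat.le_findGreatest hle hP
  omega

end Data

end Pool.Agent.H.MP_286f1f_ag
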