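import Pool.Agent.H.MP_286f1f_ag.C1
import Pool.Agent.H.MP_286f1f_ag.D1

set_option autoImplicit false

namespace Pool.Agent.H.MP_286f1f_ag

open Finset MvPowerSeries

theorem exists_data {d : ℕ} {k S K L : Type} [Field k] [CommRing S] [IsDomain S] [Field K]
    [Field L] [Algebra (MvPowerSeries (Fin d) k) S] [Module.Finite (MvPowerSeries (Fin d) k) S]
    [Algebra (MvPowerSeries (Fin d) k) K] [IsFractionRing (MvPowerSeries (Fin d) k) K]
    [Algebra S L] [IsFractionRing S L] [Algebra K L] [Algebra (MvPowerSeries (Fin d) k) L]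
    [IsScalarTower (MvPowerSeries (Fin d) k) K L] [IsScalarTower (MvPowerSeries (Fin d) k) S L]
    [FiniteDimensional K L] [Algebra k K] [IsScalarTower k (MvPowerSeries (Fin d) k) K] :
    ∃ D : Data d k K L, D.A = (algebraMap (MvPowerSeries (Fin d) k) K).range ∧
      D.S = (algebraMap S L).range ∧ ∀ γ : Fin d → ℕ, D.Y (fun i => γ i) =
        algebraMap (MvPowerSeries (Fin d) k) K (∏ i, X i ^ γ i) := by
  classical
  obtain ⟨E, hE0, hE1, hE2, hE3⟩ := exists_E d
  obtain ⟨v0, hv1, hv2⟩ := exists_val (k := k) E hE0 hE1 hE2 hE3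
  set φ := algebraMap (MvPowerSeries (Fin d) k) K with hφ
  have hφi : Function.Injective φ := IsFractionRing.injective _ _
  have hv0 : ∀ f, f ≠ 0 → v0 f ≠ 0 := fun f hf h => by
    obtain ⟨γ, -, h2⟩ := hv2 f hf
    rw [h] at h2
    exact (hE0 _).ne h2
  have hS : nonZeroDivisors (MvPowerSeries (Fin d) k) ≤ v0.supp.primeCompl := fun f hf =>
    hv0 f (nonZeroDivisors.ne_zero hf)
  obtain ⟨v, hv⟩ : ∃ v : Valuation K NNReal, ∀ f, v (φ f) = v0 f :=
    ⟨v0.extendToLocalization hS K, fun f => v0.extendToLocalization_apply_map_apply hS K f⟩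
  obtain ⟨n, n0, npos, nadd, nmul, npow, nsmul, nval⟩ := spec (L := L) v
  have hEz : E 0 = 1 := by
    have := hE1 0 0
    rw [add_zero] at this
    exact (mul_eq_left₀ (hE0 0).ne').mp this.symm
  have hEn : ∀ (m : ℕ) g, E (m • g) = E g ^ m := fun m g => by
    induction m with
    | zero => simp [hEz]
    | succ m ih => rw [succ_nsmul, hE1, ih, pow_succ]
  have hX0 : ∀ i, φ (X i) ≠ 0 := fun i =>
    (map_ne_zero_iff _ hφi).mpr (nonZeroDivisors.ne_zero X_mem_nonzeroDivisors)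
  let Y : (Fin d → ℤ) → K := fun g => ∏ i, φ (X i) ^ g i
  have hYadd : ∀ g h, Y (g + h) = Y g * Y h := fun g h => by
    simp only [Y, Pi.add_apply, zpow_add₀ (hX0 _), Finset.prod_mul_distrib]
  have hYnat : ∀ γ : Fin d → ℕ, Y (fun i => γ i) = φ (∏ i, X i ^ γ i) := fun γ => by
    simp only [Y, zpow_natCast, map_prod, map_pow]
  have hYmon : ∀ (γ : Fin d →₀ ℕ) (c : k),
      algebraMap k K c * Y (fun i => γ i) = φ (monomial γ c) := fun γ c => by
    rw [hYnat, monomial_eq', map_mul, Finsupp.prod_fintype _ _ (by simp),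
      IsScalarTower.algebraMap_apply k (MvPowerSeries (Fin d) k) K]
    rfl
  have hvmon : ∀ (γ : Fin d →₀ ℕ) (c : k), c ≠ 0 → (v0 (monomial γ c) : ℝ) = E (fun i => γ i) := by
    intro γ c hc
    obtain ⟨γ', h1, h2⟩ := hv2 (monomial γ c) (fun h => hc (by
      simpa using congrArg (coeff γ) h))
    rw [coeff_monomial] at h1
    have : γ' = γ := by
      by_contra h
      exact h1 (if_neg h)
    rw [h2, this]
  have hvk : ∀ c : k, c ≠ 0 → (v (algebraMap k K c) : ℝ) = 1 := fun c hc => by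
    have := hYmon 0 c
    have h2 : Y (fun i => ((0 : Fin d →₀ ℕ) i : ℤ)) = 1 := by simp [Y]
    rw [h2, mul_one] at this
    rw [this, hv, hvmon 0 c hc, ← hEz]; rfl
  have hnat : ∀ g : Fin d → ℤ, 0 ≤ g → ∃ γ : Fin d →₀ ℕ, g = fun i => (γ i : ℤ) := fun g hg =>
    ⟨Finsupp.equivFunOnFinite.symm fun i => (g i).toNat, funext fun i => by
      simpa using (hg i)⟩
  have hvY0 : ∀ g, 0 ≤ g → (v (Y g) : ℝ) = E g := fun g hg => by
    obtain ⟨γ, rfl⟩ := hnat g hg
    have := hYmon γ 1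
    rw [map_one, one_mul] at this
    rw [this, hv, hvmon γ 1 one_ne_zero]
  have hvY : ∀ g, (v (Y g) : ℝ) = E g := fun g => by
    have h1 := hvY0 (g + fun i => |g i|) (fun i => by
      have := neg_abs_le (g i)
      simp only [Pi.add_apply, Pi.zero_apply]; linarith)
    rw [hYadd, map_mul, NNReal.coe_mul, hvY0 _ (fun i => abs_nonneg _), hE1] at h1
    exact mul_right_cancel₀ (hE0 _).ne' h1
  have hlt0 : ∀ f, f ≠ 0 → ∃ (c : k) (γ : Fin d →₀ ℕ), c ≠ 0 ∧ (v (φ f) : ℝ) = E (fun i => γ i) ∧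
      v (φ f - algebraMap k K c * Y (fun i => γ i)) < v (φ f) := by
    intro f hf
    obtain ⟨γ, h1, h2⟩ := hv2 f hf
    refine ⟨coeff γ f, γ, h1, by rw [hv, h2], ?_⟩
    rw [hYmon, ← map_sub, hv, hv]
    by_cases h : f - monomial γ (coeff γ f) = 0
    · rw [h, map_zero]; exact pos_iff_ne_zero.mpr (hv0 f hf)
    obtain ⟨γ', h3, h4⟩ := hv2 _ h
    have h5 : γ' ≠ γ := by
      rintro rfl
      simp at h3
    rw [map_sub, coeff_monomial, if_neg h5, sub_zero] at h3
    rw [← NNReal.coe_lt_coe, h4]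
    refine lt_of_le_of_ne (hv1 f γ' h3) fun h6 => h5 ?_
    rw [h2] at h6
    ext i
    have : (γ' i : ℤ) = γ i := congrFun (hE2 h6) i
    exact_mod_cast this
  have hlt : ∀ a : K, a ≠ 0 → ∃ (c : k) (g : Fin d → ℤ), (v a : ℝ) = E g ∧
      v (a - algebraMap k K c * Y g) < v a := by
    intro a ha
    obtain ⟨f, g, hg, rfl⟩ := IsFractionRing.div_surjective (A := MvPowerSeries (Fin d) k) a
    rw [← hφ] at ha ⊢
    have hg0 := nonZeroDivisors.ne_zero hg
    have hf0 : f ≠ 0 := by rintro rfl; simp at ha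
    obtain ⟨c1, γ1, hc1, h1, h1'⟩ := hlt0 f hf0
    obtain ⟨c2, γ2, hc2, h2, h2'⟩ := hlt0 g hg0
    have hg1 : φ g ≠ 0 := (map_ne_zero_iff _ hφi).mpr hg0
    have hg2 : v (φ g) ≠ 0 := (v.ne_zero_iff).mpr hg1
    set g0 : Fin d → ℤ := (fun i => (γ1 i : ℤ)) - (fun i => (γ2 i : ℤ)) with hg0'
    have h3 : (fun i => (γ1 i : ℤ)) = g0 + fun i => (γ2 i : ℤ) := by rw [hg0', sub_add_cancel]
    refine ⟨c1 / c2, g0, ?_, ?_⟩
    · rw [map_div₀, NNReal.coe_div, h1, h2, h3, hE1, mul_div_cancel_right₀ _ (hE0 _).ne']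
    · have hc2' : algebraMap k K c2 ≠ 0 := (_root_.map_ne_zero _).mpr hc2
      have h4 : φ f / φ g - algebraMap k K (c1 / c2) * Y g0 =
          ((φ f - algebraMap k K c1 * Y (fun i => γ1 i)) - algebraMap k K (c1 / c2) * Y g0 *
            (φ g - algebraMap k K c2 * Y (fun i => γ2 i))) / φ g := by
        rw [h3, hYadd, map_div₀]; field_simp; ring
      rw [h4, map_div₀ v, map_div₀ v]
      refine div_lt_div_of_pos_right (v.map_sub_lt h1' ?_) (pos_iff_ne_zero.mpr hg2)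
      rw [← NNReal.coe_lt_coe] at h2' ⊢
      rw [map_mul, map_mul, NNReal.coe_mul, NNReal.coe_mul, hvk _ (div_ne_zero hc1 hc2), one_mul,
        hvY, h1, h3, hE1, ← h2]
      exact mul_lt_mul_of_pos_left h2' (hE0 _)
  have hint : ∀ a : K, IsIntegral (MvPowerSeries (Fin d) k) a → a ≠ 0 → ∀ g, (v a : ℝ) = E g →
      0 ≤ g := by
    intro a ha ha0 g hg
    obtain ⟨δ, hδ, hδ'⟩ := FractionalIdeal.isFractional_adjoin_integral
      (nonZeroDivisors (MvPowerSeries (Fin d) k)) a ha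
    obtain ⟨-, γ0, -, h0, -⟩ := hlt0 δ (nonZeroDivisors.ne_zero hδ)
    have h1 : ∀ (m : ℕ) i, 0 ≤ (γ0 i : ℤ) + m * g i := by
      intro m i
      obtain ⟨f, hf⟩ := hδ' (a ^ m) (Subalgebra.pow_mem _ (Algebra.self_mem_adjoin_singleton _ a) m)
      rw [Algebra.smul_def, ← hφ] at hf
      have hf0 : f ≠ 0 := by
        rintro rfl
        rw [map_zero] at hf
        exact mul_ne_zero ((map_ne_zero_iff _ hφi).mpr (nonZeroDivisors.ne_zero hδ))
          (pow_ne_zero m ha0) hf.symm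
      obtain ⟨-, γ, -, h2, -⟩ := hlt0 f hf0
      rw [hf, map_mul, map_pow, NNReal.coe_mul, NNReal.coe_pow, h0, hg, ← hEn, ← hE1] at h2
      have h3 := congrFun (hE2 h2) i
      rw [Pi.add_apply, Pi.smul_apply, nsmul_eq_mul] at h3
      rw [h3]; exact Int.natCast_nonneg _
    intro i
    by_contra hneg
    have h2 := h1 (γ0 i + 1) i
    have h3 : g i ≤ -1 := by simp only [Pi.zero_apply] at hneg; omega
    push_cast at h2
    nlinarith [Int.natCast_nonneg (γ0 i)]
  have hval : ∀ z : L, z ≠ 0 → ∃ (a : K) (m : ℕ), (∃ i, a = (minpoly K z).coeff i) ∧ a ≠ 0 ∧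
      n z ^ (Module.finrank K L).factorial = (v a : ℝ) ^ m := by
    intro z hz
    obtain ⟨i, hi, hi0, hi1⟩ := nval z hz
    obtain ⟨m, hm⟩ : (minpoly K z).natDegree - i ∣ (Module.finrank K L).factorial :=
      Nat.dvd_factorial (by omega) ((Nat.sub_le _ _).trans (minpoly.natDegree_le z))
    exact ⟨_, m, ⟨i, rfl⟩, hi0, by rw [hm, pow_mul, hi1]⟩
  have hsm : ∀ (f : MvPowerSeries (Fin d) k) (s : S),
      φ f • algebraMap S L s = algebraMap S L (f • s) := fun f s => by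
    rw [hφ, algebraMap_smul, Algebra.smul_def, Algebra.smul_def, map_mul,
      ← IsScalarTower.algebraMap_apply]
  refine ⟨{ n := n, v := fun a => v a, Y := Y, E := E, e := (Module.finrank K L).factorial,
            A := φ.range, S := (algebraMap S L).range, n_zero := n0, n_pos := npos,
            n_add := nadd, n_mul := nmul, n_pow := npow, n_smul := nsmul, v_k := hvk,
            Y_add := hYadd, Y_zero := by simp [Y], v_Y := hvY, E_inj := hE2, E_fin := hE3,
            e_pos := Nat.factorial_pos _, lt := ?_, val := ?_, valS := ?_, k_mem := ?_,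
            Y_mem := ?_, smul_mem := ?_, frac := ?_, fracK := ?_, complete := ?_, supp := ?_ },
    rfl, rfl, hYnat⟩
  · intro a ha
    obtain ⟨c, g, -, h⟩ := hlt a ha
    exact ⟨c, g, by exact_mod_cast h⟩
  · intro z hz
    obtain ⟨a, m, -, ha, h⟩ := hval z hz
    obtain ⟨-, g, hg, -⟩ := hlt a ha
    exact ⟨m • g, by rw [h, hg, hEn]⟩
  · rintro _ ⟨s, rfl⟩ hz
    obtain ⟨a, m, ⟨i, hi⟩, ha, h⟩ := hval _ hz
    obtain ⟨-, g, hg, -⟩ := hlt a ha
    refine ⟨m • g, nsmul_nonneg (hint a ?_ ha g hg) m, by rw [h, hg, hEn]⟩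
    have h1 : IsIntegral (MvPowerSeries (Fin d) k) (algebraMap S L s) :=
      (Algebra.IsIntegral.isIntegral s).map
        (IsScalarTower.toAlgHom (MvPowerSeries (Fin d) k) S L)
    obtain ⟨p, hp, hp'⟩ := h1
    have h2 := integralClosure.mem_lifts_of_monic_of_dvd_map K hp
      (minpoly.monic (Algebra.IsIntegral.isIntegral (algebraMap S L s)))
      (minpoly.dvd K _ (by rw [Polynomial.aeval_map_algebraMap]; exact hp'))
    obtain ⟨b, hb⟩ := (Polynomial.lifts_iff_coeff_lifts _).mp h2 i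
    rw [hi, ← hb]
    exact b.2
  · intro c
    exact ⟨algebraMap k _ c, (IsScalarTower.algebraMap_apply k (MvPowerSeries (Fin d) k) K c).symm⟩
  · intro g hg
    obtain ⟨γ, rfl⟩ := hnat g hg
    exact ⟨_, (hYnat γ).symm⟩
  · rintro _ ⟨f, rfl⟩ _ ⟨s, rfl⟩
    exact ⟨_, (hsm f s).symm⟩
  · intro z
    obtain ⟨s, t, ht, rfl⟩ := IsFractionRing.div_surjective (A := S) z
    have ht0 := nonZeroDivisors.ne_zero ht
    obtain ⟨c, a, ha, h⟩ := Algebra.IsAlgebraic.exists_smul_eq_mul (MvPowerSeries (Fin d) k) s ht0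
    refine ⟨φ a, ⟨a, rfl⟩, (map_ne_zero_iff _ hφi).mpr ha, c, ?_⟩
    have ht1 : algebraMap S L t ≠ 0 := (map_ne_zero_iff _ (IsFractionRing.injective S L)).mpr ht0
    rw [← smul_div_assoc, hsm, h, map_mul]; field_simp
  · intro a
    obtain ⟨f, g, hg, rfl⟩ := IsFractionRing.div_surjective (A := MvPowerSeries (Fin d) k) a
    have hg1 : φ g ≠ 0 := (map_ne_zero_iff _ hφi).mpr (nonZeroDivisors.ne_zero hg)
    refine ⟨φ g, ⟨g, rfl⟩, hg1, f, ?_⟩
    rw [← hφ]; field_simp
  · intro a ha t ht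
    choose f hf using ha
    have ht0 : 0 ≤ t := by simpa using (v (a 0)).2.trans (ht 0)
    let s : MvPowerSeries (Fin d) k := fun γ => ∑ᶠ j, coeff γ (f j)
    refine ⟨φ s, ⟨s, rfl⟩, fun N => ?_⟩
    simp only [← hf, ← map_sum, ← map_sub, hv] at ht ⊢
    by_cases h : s - ∑ j ∈ range N, f j = 0
    · rw [h, map_zero]; positivity
    obtain ⟨γ, h1, h2⟩ := hv2 _ h
    obtain ⟨j, hj, hj'⟩ : ∃ j, N ≤ j ∧ coeff γ (f j) ≠ 0 := by
      by_contra hcon
      push Not at hcon
      apply h1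
      rw [map_sub, map_sum, sub_eq_zero]
      refine finsum_eq_sum_of_support_subset _ fun j hj => ?_
      by_contra h3
      exact hj (hcon j (by simpa using h3))
    rw [h2]
    refine (hv1 _ _ hj').trans ((ht j).trans ?_)
    exact div_le_div_of_nonneg_left ht0 (by positivity) (pow_le_pow_right₀ one_le_two hj)
  · intro q a ha h0
    choose f hf using ha
    have h1 : ∑ i, Y (Pi.single i (q : ℤ)) * a i = φ (∑ i, X i ^ q * f i) := by
      rw [map_sum]
      refine Finset.sum_congr rfl fun i _ => ?_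
      rw [map_mul, hf, map_pow]
      congr 1
      simp only [Y]
      rw [Finset.prod_eq_single i (fun j _ hj => by simp [Pi.single_eq_of_ne hj]) (by simp)]
      simp
    rw [h1] at h0 ⊢
    obtain ⟨γ, h2, h3⟩ := hv2 _ ((map_ne_zero_iff _ hφi).mp h0)
    rw [map_sum] at h2
    obtain ⟨i, -, hi⟩ := Finset.exists_ne_zero_of_sum_ne_zero h2
    refine ⟨_, i, ?_, by rw [hv, h3]⟩
    by_contra hlt
    exact hi (X_pow_dvd_iff.mp (dvd_mul_right _ _) γ (by simpa using hlt))

end Pool.Agent.H.MP_286f1f_ag
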