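import Pool.Agent.H.MP_286f1f_ag.D1

set_option autoImplicit false

namespace Pool.Agent.H.MP_286f1f_ag

open Finset

variable {d : ℕ} {k K L : Type} [Field k] [Field K] [Field L] [Algebra k K] [Algebra K L]
  (D : Data d k K L)

namespace Data

def X (T : Finset L) (t : ℝ) (x : L) : Prop :=
  ∃ a : L → K, (∀ τ ∈ T, a τ ∈ D.A ∧ D.n (a τ • τ) ≤ t) ∧ x = ∑ τ ∈ T, a τ • τ

lemma X_zero (T : Finset L) {t : ℝ} (ht : 0 ≤ t) : D.X T t 0 :=
  ⟨0, fun τ _ => ⟨D.A.zero_mem, by simpa [D.n_zero] using ht⟩, by simp⟩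

lemma X_add {T : Finset L} {t : ℝ} {x y : L} (hx : D.X T t x) (hy : D.X T t y) :
    D.X T t (x + y) := by
  obtain ⟨a, ha, rfl⟩ := hx
  obtain ⟨b, hb, rfl⟩ := hy
  refine ⟨a + b, fun τ hτ => ⟨D.A.add_mem (ha τ hτ).1 (hb τ hτ).1, ?_⟩, ?_⟩
  · rw [Pi.add_apply, add_smul]; exact D.n_add_le (ha τ hτ).2 (hb τ hτ).2
  · simp [add_smul, Finset.sum_add_distrib]

lemma X_mono {T : Finset L} {t t' : ℝ} {x : L} (h : t ≤ t') (hx : D.X T t x) : D.X T t' x := by
  obtain ⟨a, ha, rfl⟩ := hx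
  exact ⟨a, fun τ hτ => ⟨(ha τ hτ).1, (ha τ hτ).2.trans h⟩, rfl⟩

lemma X_single {T : Finset L} {t : ℝ} {τ : L} {a : K} (hτ : τ ∈ T) (ha : a ∈ D.A)
    (h : D.n (a • τ) ≤ t) : D.X T t (a • τ) := by
  classical
  refine ⟨Pi.single τ a, fun σ _ => ?_, ?_⟩
  · by_cases hσ : σ = τ
    · subst hσ; simpa using ⟨ha, h⟩
    · simp only [Pi.single_eq_of_ne hσ, zero_smul, D.n_zero]
      exact ⟨D.A.zero_mem, (D.n_nonneg _).trans h⟩
  · rw [Finset.sum_eq_single τ (fun b _ hb => by simp [Pi.single_eq_of_ne hb])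
      (fun h => absurd hτ h)]
    simp

lemma X_mem {T : Finset L} (hT : ∀ τ ∈ T, τ ∈ D.S) {t : ℝ} {x : L} (hx : D.X T t x) :
    x ∈ D.S := by
  obtain ⟨a, ha, rfl⟩ := hx
  exact D.S.sum_mem fun τ hτ => D.smul_mem _ (ha τ hτ).1 _ (hT τ hτ)

lemma X_le {T : Finset L} {t : ℝ} (ht : 0 ≤ t) {x : L} (hx : D.X T t x) : D.n x ≤ t := by
  obtain ⟨a, ha, rfl⟩ := hx
  exact D.n_sum_le _ _ ht fun τ hτ => (ha τ hτ).2

lemma exists_gen [FiniteDimensional K L] : ∃ T : Finset L, (∀ τ ∈ T, τ ∈ D.S ∧ τ ≠ 0) ∧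
    ∀ z ∈ D.S, z ≠ 0 → ∃ x, D.X T (D.n z) x ∧ D.n (z - x) < D.n z := by
  classical
  by_contra hcon
  push Not at hcon
  choose F hF1 hF2 hF3 using hcon
  let T : ℕ → {T : Finset L // ∀ τ ∈ T, τ ∈ D.S ∧ τ ≠ 0} := fun j =>
    Nat.rec ⟨∅, by simp⟩ (fun _ U => ⟨insert (F U.1 U.2) U.1, fun τ hτ => by
      rcases Finset.mem_insert.mp hτ with rfl | hτ
      · exact ⟨hF1 _ _, hF2 _ _⟩
      · exact U.2 τ hτ⟩) j
  let z : ℕ → L := fun j => F (T j).1 (T j).2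
  have hTs : ∀ j, (T (j + 1)).1 = insert (z j) (T j).1 := fun j => rfl
  have hmem : ∀ i j, i < j → z i ∈ (T j).1 := by
    intro i j hij
    induction j with
    | zero => omega
    | succ j ih =>
      rw [hTs]
      rcases Nat.lt_succ_iff_lt_or_eq.mp hij with h | rfl
      · exact Finset.mem_insert_of_mem (ih h)
      · exact Finset.mem_insert_self _ _
  have hzS : ∀ j, z j ∈ D.S := fun j => hF1 _ _
  have hz0 : ∀ j, z j ≠ 0 := fun j => hF2 _ _
  choose g hg0 hg using fun j => D.valS (z j) (hzS j) (hz0 j)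
  obtain ⟨φ, hφ⟩ := (wellQuasiOrdered_le (α := Fin d → ℕ)).exists_monotone_subseq
    (fun j i => (g j i).toNat)
  have hφ' : ∀ m n, m ≤ n → g (φ m) ≤ g (φ n) := by
    intro m n hmn i
    have h1 : (g (φ m) i).toNat ≤ (g (φ n) i).toNat := hφ m n hmn i
    have h2 : 0 ≤ g (φ m) i := hg0 (φ m) i
    have h3 : 0 ≤ g (φ n) i := hg0 (φ n) i
    show g (φ m) i ≤ g (φ n) i
    omega
  set r := Module.finrank K L
  have hdep : ¬ LinearIndependent K (fun i : Fin (r + 1) => z (φ i)) := by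
    intro h
    have := h.fintype_card_le_finrank
    simp at this
    omega
  obtain ⟨a, ha, i1, hi1⟩ := Fintype.not_linearIndependent_iff.mp hdep
  obtain ⟨i2, -, hi2⟩ := Finset.exists_max_image (univ : Finset (Fin (r + 1)))
    (fun i => D.n (a i • z (φ i))) ⟨i1, mem_univ _⟩
  set t := D.n (a i2 • z (φ i2)) with ht
  have ht0 : 0 < t := (D.n_pos _ (smul_ne_zero hi1 (hz0 _))).trans_le (hi2 i1 (mem_univ _))
  let U : Finset (Fin (r + 1)) := univ.filter fun i => D.n (a i • z (φ i)) = t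
  have hU : U.Nonempty := ⟨i2, by simp [U, ht]⟩
  set i0 := U.max' hU
  have hi0 : D.n (a i0 • z (φ i0)) = t := (Finset.mem_filter.mp (U.max'_mem hU)).2
  have hi0' : ∀ l, i0 < l → D.n (a l • z (φ l)) < t := by
    intro l hl
    refine lt_of_le_of_ne (hi2 l (mem_univ _)) fun h => ?_
    exact absurd (U.le_max' l (by simp [U, h])) (not_le.mpr hl)
  have ha0 : a i0 ≠ 0 := by
    intro h
    rw [h, zero_smul, D.n_zero] at hi0
    exact ht0.ne hi0
  set z0 := z (φ i0) with hz0def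
  have hva : 0 < D.v (a i0) := D.v_pos ha0
  have hnz : D.n z0 = t / D.v (a i0) := by
    rw [← hi0, D.n_smul]; field_simp
  have hterm : ∀ l, D.n ((-(a i0)⁻¹ * a l) • z (φ l)) = D.n (a l • z (φ l)) / D.v (a i0) := by
    intro l
    rw [mul_smul, D.n_smul, D.v_neg, D.v_inv]; field_simp
  have hz0eq : z0 = ∑ l ∈ univ.erase i0, (-(a i0)⁻¹ * a l) • z (φ l) := by
    rw [← Finset.add_sum_erase _ _ (mem_univ i0)] at ha
    have h1 : ∑ l ∈ univ.erase i0, (-(a i0)⁻¹ * a l) • z (φ l) =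
        (-(a i0)⁻¹) • ∑ l ∈ univ.erase i0, a l • z (φ l) := by
      rw [Finset.smul_sum]; simp only [mul_smul]
    rw [h1, eq_neg_of_add_eq_zero_right ha, smul_neg, neg_smul, neg_neg, smul_smul,
      inv_mul_cancel₀ ha0, one_smul]
  have hnz0 : 0 < D.n z0 := D.n_pos _ (hz0 _)
  have key : ∃ x, D.X (T (φ i0)).1 (D.n z0) x ∧
      D.n (∑ l ∈ univ.erase i0, (-(a i0)⁻¹ * a l) • z (φ l) - x) < D.n z0 := by
    refine Finset.sum_induction _ (fun w => ∃ x, D.X (T (φ i0)).1 (D.n z0) x ∧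
      D.n (w - x) < D.n z0) ?_ ⟨0, D.X_zero _ hnz0.le, by simpa [D.n_zero] using hnz0⟩ ?_
    · rintro w w' ⟨x, hx, hx'⟩ ⟨y, hy, hy'⟩
      refine ⟨x + y, D.X_add hx hy, ?_⟩
      have : w + w' - (x + y) = (w - x) + (w' - y) := by ring
      rw [this]; exact D.n_add_lt hx' hy'
    · intro l hl
      have hle : D.n ((-(a i0)⁻¹ * a l) • z (φ l)) ≤ D.n z0 := by
        rw [hterm, hnz]
        exact div_le_div_of_nonneg_right (hi2 l (mem_univ _)) hva.le
      rcases hle.lt_or_eq with hlt | heq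
      · exact ⟨0, D.X_zero _ hnz0.le, by simpa using hlt⟩
      have hli : l < i0 := by
        rcases lt_trichotomy l i0 with h | h | h
        · exact h
        · exact absurd h (Finset.ne_of_mem_erase hl)
        · have := hi0' l h
          rw [hterm, hnz] at heq
          have := (div_left_inj' hva.ne').mp heq
          linarith
      set b := -(a i0)⁻¹ * a l with hb
      have hb0 : b ≠ 0 := by
        intro h
        rw [h, zero_smul, D.n_zero] at heq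
        exact hnz0.ne heq
      obtain ⟨c, γ, hc, hvb, hlt⟩ := D.lt' hb0
      have hE : D.E (D.e • γ + g (φ l)) = D.E (g (φ i0)) := by
        rw [D.E_add, D.E_nsmul, ← hg, ← hg, ← hvb, ← mul_pow, ← D.n_smul, heq]
      have hγ : 0 ≤ γ := by
        intro i
        have h1 := congrFun (D.E_inj hE) i
        have h2 := hφ' l i0 (Nat.le_of_lt hli) i
        rw [Pi.add_apply, Pi.smul_apply, nsmul_eq_mul] at h1
        have h3 : (0 : ℤ) < D.e := by exact_mod_cast D.e_pos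
        have h4 : 0 ≤ (D.e : ℤ) * γ i := by linarith
        exact nonneg_of_mul_nonneg_right h4 h3 |> fun h => by simpa using h
      have hzl : 0 < D.n (z (φ l)) := D.n_pos _ (hz0 _)
      have hlt2 : D.n (b • z (φ l) - (algebraMap k K c * D.Y γ) • z (φ l)) < D.n z0 := by
        rw [← sub_smul, D.n_smul, ← heq, D.n_smul]
        exact mul_lt_mul_of_pos_right hlt hzl
      refine ⟨(algebraMap k K c * D.Y γ) • z (φ l), D.X_single
        (hmem _ _ (φ.strictMono hli)) (D.A.mul_mem (D.k_mem c) (D.Y_mem γ hγ)) ?_, hlt2⟩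
      rw [D.n_eq_of_lt (x := b • z (φ l)) (by rw [heq]; exact hlt2), heq]
  obtain ⟨x, hx1, hx2⟩ := key
  rw [← hz0eq] at hx2
  exact absurd hx2 (not_lt.mpr (hF3 _ _ x hx1))

lemma approx {T : Finset L} (hT : ∀ τ ∈ T, τ ∈ D.S ∧ τ ≠ 0)
    (hR : ∀ z ∈ D.S, z ≠ 0 → ∃ x, D.X T (D.n z) x ∧ D.n (z - x) < D.n z)
    {η : ℝ} (hη : 0 < η) : ∀ z ∈ D.S, ∃ x, D.X T (D.n z) x ∧ D.n (z - x) ≤ η := by
  classical
  let G := (D.E_fin (η ^ D.e) (pow_pos hη _)).toFinset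
  suffices H : ∀ N : ℕ, ∀ z ∈ D.S, (G.filter fun g => D.E g ≤ D.n z ^ D.e).card ≤ N →
      ∃ x, D.X T (D.n z) x ∧ D.n (z - x) ≤ η from fun z hz => H _ z hz le_rfl
  intro N
  induction N with
  | zero =>
    intro z hz hN
    refine ⟨0, D.X_zero _ (D.n_nonneg _), ?_⟩
    rw [sub_zero]
    by_contra hlt
    push Not at hlt
    have hz0 : z ≠ 0 := by
      rintro rfl
      rw [D.n_zero] at hlt; linarith
    obtain ⟨g, hg0, hg⟩ := D.valS z hz hz0
    have : g ∈ G.filter fun g => D.E g ≤ D.n z ^ D.e := by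
      simp only [G, Finset.mem_filter, Set.Finite.mem_toFinset, Set.mem_ofPred_eq]
      exact ⟨⟨hg0, by rw [← hg]; exact pow_lt_pow_left₀ hlt hη.le D.e_pos.ne'⟩, hg.ge⟩
    have := Finset.card_pos.mpr ⟨g, this⟩
    omega
  | succ N ih =>
    intro z hz hN
    by_cases hlt : D.n z ≤ η
    · exact ⟨0, D.X_zero _ (D.n_nonneg _), by simpa using hlt⟩
    push Not at hlt
    have hz0 : z ≠ 0 := by
      rintro rfl
      rw [D.n_zero] at hlt; linarith
    obtain ⟨g, hg0, hg⟩ := D.valS z hz hz0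
    have hgm : g ∈ G.filter fun g => D.E g ≤ D.n z ^ D.e := by
      simp only [G, Finset.mem_filter, Set.Finite.mem_toFinset, Set.mem_ofPred_eq]
      exact ⟨⟨hg0, by rw [← hg]; exact pow_lt_pow_left₀ hlt hη.le D.e_pos.ne'⟩, hg.ge⟩
    obtain ⟨x, hx1, hx2⟩ := hR z hz hz0
    have hx3 : D.n (z - x) ^ D.e < D.n z ^ D.e :=
      pow_lt_pow_left₀ hx2 (D.n_nonneg _) D.e_pos.ne'
    have hsub : (G.filter fun g => D.E g ≤ D.n (z - x) ^ D.e) ⊂
        (G.filter fun g => D.E g ≤ D.n z ^ D.e) := by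
      refine Finset.ssubset_iff_of_subset ?_ |>.mpr ⟨g, hgm, ?_⟩
      · intro h hh
        rw [Finset.mem_filter] at hh ⊢
        exact ⟨hh.1, hh.2.trans hx3.le⟩
      · rw [Finset.mem_filter]
        rintro ⟨-, h⟩
        linarith
    obtain ⟨y, hy1, hy2⟩ := ih (z - x) (D.S.sub_mem hz (D.X_mem (fun τ h => (hT τ h).1) hx1))
      (by have := Finset.card_lt_card hsub; omega)
    refine ⟨x + y, D.X_add hx1 (D.X_mono hx2.le hy1), ?_⟩
    rwa [← sub_sub]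

lemma exists_strict [FiniteDimensional K L] : ∃ T : Finset L, (∀ τ ∈ T, τ ∈ D.S ∧ τ ≠ 0) ∧
    ∀ z ∈ D.S, D.X T (D.n z) z := by
  classical
  obtain ⟨T, hT, hR⟩ := D.exists_gen
  refine ⟨T, hT, fun z hz => ?_⟩
  by_cases hz0 : z = 0
  · rw [hz0]; exact D.X_zero _ (D.n_nonneg _)
  set t := D.n z
  have ht : 0 < t := D.n_pos z hz0
  have hstep : ∀ (j : ℕ) (w : {w : L // w ∈ D.S}), ∃ x, D.X T (D.n w.1) x ∧
      D.n (w.1 - x) ≤ t / 2 ^ (j + 1) := fun j w => D.approx hT hR (by positivity) w.1 w.2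
  choose F hF1 hF2 using hstep
  let ρ : ℕ → {w : L // w ∈ D.S} := fun j => Nat.rec ⟨z, hz⟩ (fun j w => ⟨w.1 - F j w,
    D.S.sub_mem w.2 (D.X_mem (fun τ h => (hT τ h).1) (hF1 j w))⟩) j
  have hρs : ∀ j, (ρ (j + 1)).1 = (ρ j).1 - F j (ρ j) := fun j => rfl
  have hρ : ∀ j, D.n (ρ j).1 ≤ t / 2 ^ j := by
    intro j
    cases j with
    | zero => simp [ρ, t]
    | succ j => rw [hρs]; exact hF2 j _
  have hX : ∀ j, D.X T (t / 2 ^ j) (F j (ρ j)) := fun j => D.X_mono (hρ j) (hF1 j _)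
  choose a ha1 ha2 using hX
  have hsum : ∀ N, z = ∑ τ ∈ T, (∑ j ∈ range N, a j τ) • τ + (ρ N).1 := by
    intro N
    induction N with
    | zero => simp [ρ]
    | succ N ih =>
      rw [hρs, ha2 N]
      simp only [Finset.sum_range_succ, add_smul, Finset.sum_add_distrib]
      rw [ih]; ring
  have hc : ∀ τ ∈ T, ∃ s ∈ D.A, ∀ N, D.v (s - ∑ j ∈ range N, a j τ) ≤ (t / D.n τ) / 2 ^ N := by
    intro τ hτ
    refine D.complete (fun j => a j τ) (fun j => (ha1 j τ hτ).1) _ fun j => ?_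
    have h1 := (ha1 j τ hτ).2
    have h2 := D.n_pos τ (hT τ hτ).2
    rw [D.n_smul] at h1
    rw [div_right_comm, le_div_iff₀ h2]; exact h1
  choose! s hs1 hs2 using hc
  refine ⟨s, fun τ hτ => ⟨hs1 τ hτ, ?_⟩, ?_⟩
  · have h1 := hs2 τ hτ 0
    have h2 := D.n_pos τ (hT τ hτ).2
    simp only [range_zero, sum_empty, sub_zero, pow_zero, div_one] at h1
    rw [D.n_smul]; rwa [le_div_iff₀ h2] at h1
  · have hall : ∀ N : ℕ, D.n (z - ∑ τ ∈ T, s τ • τ) ≤ t / 2 ^ N := by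
      intro N
      have h1 : z - ∑ τ ∈ T, s τ • τ =
          (ρ N).1 - ∑ τ ∈ T, (s τ - ∑ j ∈ range N, a j τ) • τ := by
        conv_lhs => rw [hsum N]
        simp only [sub_smul, Finset.sum_sub_distrib]
        ring
      rw [h1]
      refine D.n_sub_le (hρ N) (D.n_sum_le _ _ (by positivity) fun τ hτ => ?_)
      have h2 := D.n_pos τ (hT τ hτ).2
      have h3 := hs2 τ hτ N
      rw [div_right_comm, le_div_iff₀ h2] at h3
      rw [D.n_smul]; exact h3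
    by_contra hne
    have h0 := D.n_pos _ (sub_ne_zero.mpr hne)
    obtain ⟨N, hN⟩ := pow_unbounded_of_one_lt (t / D.n (z - ∑ τ ∈ T, s τ • τ))
      (one_lt_two (α := ℝ))
    have h4 := hall N
    rw [le_div_iff₀ (by positivity)] at h4
    rw [div_lt_iff₀ h0] at hN
    linarith

lemma span_top [FiniteDimensional K L] (W : Submodule K L)
    (hW : ∀ z : L, z ≠ 0 → ∃ x ∈ W, D.n (z - x) < D.n z) : W = ⊤ := by
  classical
  by_contra hne
  obtain ⟨ψ, hψ0, hψ⟩ := W.exists_le_ker_of_lt_top (lt_top_iff_ne_top.mpr hne)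
  obtain ⟨T, hT, hX⟩ := D.exists_strict
  have hbound : ∀ κ : ℝ, 0 ≤ κ → (∀ τ ∈ T, D.v (ψ τ) ≤ κ * D.n τ) →
      ∀ z : L, D.v (ψ z) ≤ κ * D.n z := by
    intro κ hκ h z
    obtain ⟨b, hb, hb0, hbz⟩ := D.frac z
    obtain ⟨a, ha1, ha2⟩ := hX _ hbz
    have h1 : D.v (ψ (b • z)) ≤ κ * D.n (b • z) := by
      conv_lhs => rw [ha2, map_sum]
      refine D.v_sum_le _ _ (mul_nonneg hκ (D.n_nonneg _)) fun τ hτ => ?_
      rw [map_smul, smul_eq_mul, D.v_mul]
      have h2 := (ha1 τ hτ).2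
      rw [D.n_smul] at h2
      calc D.v (a τ) * D.v (ψ τ) ≤ D.v (a τ) * (κ * D.n τ) :=
            mul_le_mul_of_nonneg_left (h τ hτ) (D.v_nonneg _)
        _ = κ * (D.v (a τ) * D.n τ) := by ring
        _ ≤ _ := mul_le_mul_of_nonneg_left h2 hκ
    rw [map_smul, smul_eq_mul, D.v_mul, D.n_smul] at h1
    have h3 := D.v_pos hb0
    have h4 : D.v b * D.v (ψ z) ≤ D.v b * (κ * D.n z) := by linarith
    exact le_of_mul_le_mul_left h4 h3
  have hex : ∃ τ ∈ T, ψ τ ≠ 0 := by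
    by_contra h
    push Not at h
    apply hψ0
    ext z
    have := hbound 0 le_rfl (fun τ hτ => by rw [h τ hτ, D.v_zero]; simp) z
    by_contra h2
    have := D.v_pos h2
    simp at *
    linarith
  obtain ⟨τ1, hτ1, hψ1⟩ := hex
  obtain ⟨τ0, hτ0, hmax⟩ := Finset.exists_max_image T (fun τ => D.v (ψ τ) / D.n τ) ⟨τ1, hτ1⟩
  have hκ : 0 < D.v (ψ τ0) / D.n τ0 :=
    (div_pos (D.v_pos hψ1) (D.n_pos _ (hT _ hτ1).2)).trans_le (hmax τ1 hτ1)
  have hb := hbound _ hκ.le fun τ hτ => (div_le_iff₀ (D.n_pos _ (hT _ hτ).2)).mp (hmax τ hτ)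
  obtain ⟨x, hxW, hx⟩ := hW τ0 (hT _ hτ0).2
  have h1 := hb (τ0 - x)
  have h2 : ψ x = 0 := hψ hxW
  rw [map_sub, h2, sub_zero] at h1
  have h3 := mul_lt_mul_of_pos_left hx hκ
  rw [div_mul_cancel₀ _ (D.n_pos _ (hT _ hτ0).2).ne'] at h3
  linarith

end Data

end Pool.Agent.H.MP_286f1f_ag
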