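import Pool.Agent.H.MP_286f1f_ag.D2

set_option autoImplicit false

namespace Pool.Agent.H.MP_286f1f_ag

open Finset

variable {d : ℕ} {k K L : Type} [Field k] [Field K] [Field L] [Algebra k K] [Algebra K L]
  (D : Data d k K L)

namespace Data

def O : Subring L where
  carrier := {z | D.n z ≤ 1}
  mul_mem' := fun {a b} ha hb => (D.n_mul a b).trans (mul_le_one₀ ha (D.n_nonneg _) hb)
  one_mem' := D.n_one.le
  add_mem' := fun ha hb => D.n_add_le ha hb
  zero_mem' := by show D.n 0 ≤ 1; rw [D.n_zero]; exact zero_le_one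
  neg_mem' := fun {a} ha => by show D.n (-a) ≤ 1; rw [D.n_neg]; exact ha

def M : Ideal D.O where
  carrier := {z | D.n z.1 < 1}
  add_mem' := fun ha hb => D.n_add_lt ha hb
  zero_mem' := by show D.n 0 < 1; rw [D.n_zero]; exact zero_lt_one
  smul_mem' := fun c x hx => by
    show D.n (c.1 * x.1) < 1
    have h1 : D.n c.1 ≤ 1 := c.2
    have h2 : D.n x.1 < 1 := hx
    exact (D.n_mul _ _).trans_lt ((mul_le_of_le_one_left (D.n_nonneg _) h1).trans_lt h2)

noncomputable def kO : k →+* D.O :=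
  ((algebraMap K L).comp (algebraMap k K)).codRestrict D.O fun c => by
    show D.n (algebraMap K L (algebraMap k K c)) ≤ 1
    rw [Algebra.algebraMap_eq_smul_one (A := L), ← D.v_eq]; exact D.v_k_le c

lemma primes [FiniteDimensional K L] : ∃ (ι : Type) (_ : Fintype ι) (P : ι → L → Prop)
    (ε : ι → L), (∀ s x, D.n x < 1 → P s x) ∧ (∀ s x y, P s x → P s y → P s (x + y)) ∧
    (∀ s x y, P s x → D.n y ≤ 1 → P s (x * y)) ∧
    (∀ s x y, D.n x ≤ 1 → D.n y ≤ 1 → P s (x * y) → P s x ∨ P s y) ∧ (∀ s, ¬ P s 1) ∧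
    (∀ x, D.n x ≤ 1 → (∀ s, P s x) → D.n x < 1) ∧ (∀ s, D.n (ε s) ≤ 1) ∧
    (∀ s s', s' ≠ s → P s' (ε s)) ∧ D.n (1 - ∑ s, ε s) < 1 := by
  classical
  let _ : Algebra k D.O := D.kO.toAlgebra
  obtain ⟨B, hB1, hB2, hB3⟩ := D.maxOrth {z | D.n z = 1} (by
    intro z hz h
    rw [h, Set.mem_ofPred_eq, D.n_zero] at hz
    exact zero_ne_one hz)
  have hB1' : ∀ b ∈ B, D.n b = 1 := hB1
  have : Module.Finite k (D.O ⧸ D.M) := by
    let f : B → D.O ⧸ D.M := fun b => Ideal.Quotient.mk D.M ⟨b.1, (hB1' b.1 b.2).le⟩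
    refine ⟨Submodule.fg_iff_exists_fin_generating_family.mpr ?_⟩
    suffices H : Submodule.span k (Set.range f) = ⊤ by
      have := Submodule.fg_span (R := k) (Set.finite_range f)
      rw [H] at this
      exact Submodule.fg_iff_exists_fin_generating_family.mp this
    rw [eq_top_iff]
    rintro x -
    obtain ⟨z, rfl⟩ := Ideal.Quotient.mk_surjective x
    have hz : D.n z.1 ≤ 1 := z.2
    rcases hz.lt_or_eq with hlt | heq
    · rw [Ideal.Quotient.eq_zero_iff_mem.mpr (show z ∈ D.M from hlt)]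
      exact Submodule.zero_mem _
    obtain ⟨a, ha⟩ := hB3 z.1 heq
    have ha1 : ∀ b ∈ B, D.v (a b) ≤ 1 := by
      intro b hb
      have := hB2.2 a b hb
      rwa [D.n_eq_of_lt ha, heq, D.n_smul, hB1' b hb, mul_one] at this
    have hc : ∀ b ∈ B, ∃ c : k, D.v (a b - algebraMap k K c) < 1 := by
      intro b hb
      rcases (ha1 b hb).lt_or_eq with h | h
      · exact ⟨0, by simpa using h⟩
      · have h0 : a b ≠ 0 := by
          intro h0
          rw [h0, D.v_zero] at h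
          exact zero_ne_one h
        obtain ⟨c, g, -, hg, hlt⟩ := D.lt' h0
        have : g = 0 := D.E_inj (by rw [← hg, h, D.E_zero])
        rw [this, D.Y_zero, mul_one, h] at hlt
        exact ⟨c, hlt⟩
    choose! c hc using hc
    have : Ideal.Quotient.mk D.M z = ∑ b : B, c b.1 • f b := by
      have h1 : ∑ b : B, c b.1 • f b = Ideal.Quotient.mk D.M
          (∑ b : B, D.kO (c b.1) * ⟨b.1, (hB1' b.1 b.2).le⟩) := by
        rw [map_sum]; rfl
      rw [h1, Ideal.Quotient.mk_eq_mk_iff_sub_mem]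
      show D.n _ < 1
      have h2 : ((z - ∑ b : B, D.kO (c b.1) * ⟨b.1, (hB1' b.1 b.2).le⟩ : D.O) : L) =
          (z.1 - ∑ x ∈ B, a x • x) + ∑ x ∈ B, (a x - algebraMap k K (c x)) • x := by
        have h3 : ((∑ b : B, D.kO (c b.1) * ⟨b.1, (hB1' b.1 b.2).le⟩ : D.O) : L) =
            ∑ x ∈ B, algebraMap k K (c x) • x := by
          rw [AddSubmonoidClass.coe_finsetSum, ← Finset.sum_coe_sort B]
          refine Finset.sum_congr rfl fun b _ => ?_
          rw [Algebra.smul_def]; rfl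
        rw [AddSubgroupClass.coe_sub, h3]
        simp only [sub_smul, Finset.sum_sub_distrib]
        ring
      rw [h2]
      refine D.n_add_lt (by rw [← heq]; exact ha) (D.n_sum_lt _ _ one_pos fun b hb => ?_)
      rw [D.n_smul, hB1' b hb, mul_one]; exact hc b hb
    rw [this]
    exact Submodule.sum_mem _ fun b _ =>
      Submodule.smul_mem _ _ (Submodule.subset_span ⟨b, rfl⟩)
  have : IsArtinianRing (D.O ⧸ D.M) := IsArtinianRing.of_finite k _
  have : IsReduced (D.O ⧸ D.M) := ⟨by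
    rintro x ⟨m, hm⟩
    obtain ⟨z, rfl⟩ := Ideal.Quotient.mk_surjective x
    rw [← map_pow, Ideal.Quotient.eq_zero_iff_mem] at hm
    rw [Ideal.Quotient.eq_zero_iff_mem]
    have h1 : D.n (z.1 ^ m) < 1 := hm
    rw [D.n_pow] at h1
    exact lt_of_not_ge fun h => absurd h1 (not_lt.mpr (one_le_pow₀ h))⟩
  let ι := MaximalSpectrum (D.O ⧸ D.M)
  have : Fintype ι := Fintype.ofFinite _
  let Φ := IsArtinianRing.equivPi (D.O ⧸ D.M)
  let χ : ∀ s : ι, D.O →+* (D.O ⧸ D.M) ⧸ s.asIdeal := fun s =>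
    (Ideal.Quotient.mk s.asIdeal).comp (Ideal.Quotient.mk D.M)
  have hχ : ∀ s z, χ s z = Φ (Ideal.Quotient.mk D.M z) s := fun s z => rfl
  choose ε hε using fun s : ι => Ideal.Quotient.mk_surjective (I := D.M) (Φ.symm (Pi.single s 1))
  refine ⟨ι, inferInstance, fun s x => ∃ h : x ∈ D.O, χ s ⟨x, h⟩ = 0, fun s => (ε s).1,
    ?_, ?_, ?_, ?_, ?_, ?_, fun s => (ε s).2, ?_, ?_⟩
  · intro s x hx
    refine ⟨hx.le, ?_⟩
    show Ideal.Quotient.mk s.asIdeal (Ideal.Quotient.mk D.M _) = 0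
    rw [Ideal.Quotient.eq_zero_iff_mem.mpr (show (⟨x, hx.le⟩ : D.O) ∈ D.M from hx), map_zero]
  · rintro s x y ⟨hx, hx'⟩ ⟨hy, hy'⟩
    refine ⟨D.O.add_mem hx hy, ?_⟩
    have : (⟨x + y, D.O.add_mem hx hy⟩ : D.O) = ⟨x, hx⟩ + ⟨y, hy⟩ := rfl
    rw [this, map_add, hx', hy', add_zero]
  · rintro s x y ⟨hx, hx'⟩ hy
    refine ⟨D.O.mul_mem hx hy, ?_⟩
    have : (⟨x * y, D.O.mul_mem hx hy⟩ : D.O) = ⟨x, hx⟩ * ⟨y, hy⟩ := rfl
    rw [this, map_mul, hx', zero_mul]
  · rintro s x y hx hy ⟨h, h'⟩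
    have : (⟨x * y, h⟩ : D.O) = ⟨x, hx⟩ * ⟨y, hy⟩ := rfl
    rw [this, map_mul] at h'
    have := s.isMaximal.isPrime
    rcases mul_eq_zero.mp h' with h1 | h1
    · exact Or.inl ⟨hx, h1⟩
    · exact Or.inr ⟨hy, h1⟩
  · rintro s ⟨h, h'⟩
    have : (⟨1, h⟩ : D.O) = 1 := rfl
    rw [this, map_one] at h'
    have := s.isMaximal.isPrime
    exact one_ne_zero h'
  · intro x hx h
    have : Φ (Ideal.Quotient.mk D.M ⟨x, hx⟩) = 0 := by
      funext s
      obtain ⟨h1, h2⟩ := h s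
      exact h2
    have h2 : Ideal.Quotient.mk D.M ⟨x, hx⟩ = 0 := by simpa using this
    exact Ideal.Quotient.eq_zero_iff_mem.mp h2
  · intro s s' hs
    refine ⟨(ε s).2, ?_⟩
    show χ s' (ε s) = 0
    rw [hχ, hε, AlgEquiv.apply_symm_apply, Pi.single_eq_of_ne hs]
  · have h1 : (1 - ∑ s, ε s) ∈ D.M := by
      rw [← Ideal.Quotient.eq_zero_iff_mem, map_sub, map_sum, map_one]
      simp only [hε]
      rw [← map_sum, Finset.univ_sum_single (fun s : ι => (1 : (D.O ⧸ D.M) ⧸ s.asIdeal))]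
      exact sub_eq_zero.mpr (map_one Φ.symm).symm
    have h2 : D.n ((1 - ∑ s, ε s : D.O) : L) < 1 := h1
    rwa [AddSubgroupClass.coe_sub, AddSubmonoidClass.coe_finsetSum] at h2

theorem adapted [FiniteDimensional K L] : ∃ (B : Finset L) (G : L → L → Prop),
    (∀ b ∈ B, b ∈ D.S) ∧ D.Orth B ∧ Submodule.span K (B : Set L) = ⊤ ∧
    (∀ b, G b 1) ∧ (∀ b x y, G b x → G b y → G b (x * y) ∧ D.n (x * y) = D.n x * D.n y) ∧
    (∀ b x, G b x → x ≠ 0) ∧
    ∀ (κ : Type) (I : Finset κ) (β : κ → L) (a : κ → K), (∀ i ∈ I, β i ∈ B) →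
      ∑ i ∈ I, a i • β i ≠ 0 → (∀ i ∈ I, D.n (a i • β i) ≤ D.n (∑ i ∈ I, a i • β i)) →
      ∃ i ∈ I, D.n (a i • β i) = D.n (∑ i ∈ I, a i • β i) ∧ G (β i) (∑ i ∈ I, a i • β i) := by
  classical
  obtain ⟨ι, _, P, ε, P0, Padd, Pmul, Pprime, Pone, Pint, hε1, hε2, hε3⟩ := D.primes
  let Q : ι → ℝ → L → Prop := fun s t x => ∀ y, t * D.n y ≤ 1 → P s (x * y)
  have Qsmall : ∀ s t x, D.n x < t → Q s t x := by
    intro s t x hx y hy
    refine P0 s _ ((D.n_mul _ _).trans_lt ?_)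
    rcases (D.n_nonneg y).lt_or_eq with h | h
    · exact (mul_lt_mul_of_pos_right hx h).trans_le hy
    · rw [← h]; simp
  have Qadd : ∀ s t x y, Q s t x → Q s t y → Q s t (x + y) := by
    intro s t x y hx hy z hz
    rw [add_mul]; exact Padd _ _ _ (hx z hz) (hy z hz)
  have Qsmul : ∀ s (a : K) x, Q s (D.n x) x → Q s (D.n (a • x)) (a • x) := by
    intro s a x hx y hy
    rw [smul_mul_assoc, ← mul_smul_comm]
    refine hx _ ?_
    rw [D.n_smul] at hy ⊢
    linarith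
  have Qex : ∀ x, x ≠ 0 → ∃ s, ¬ Q s (D.n x) x := by
    intro x hx
    obtain ⟨g, hg⟩ := D.val x hx
    have h1 : D.n x * D.n (D.Y (-g) • x ^ (D.e - 1)) = 1 := by
      rw [D.n_smul, D.n_pow, D.v_Y, mul_left_comm, ← pow_succ', Nat.sub_add_cancel D.e_pos, hg,
        ← D.E_add, neg_add_cancel, D.E_zero]
    have h2 : D.n (x * D.Y (-g) • x ^ (D.e - 1)) = 1 := by
      rw [mul_smul_comm, ← pow_succ', Nat.sub_add_cancel D.e_pos, D.n_smul, D.n_pow, hg, D.v_Y,
        ← D.E_add, neg_add_cancel, D.E_zero]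
    by_contra h
    push Not at h
    exact absurd (Pint _ h2.le fun s => h s _ h1.le) (by rw [h2]; exact lt_irrefl _)
  obtain ⟨s1, -⟩ := Qex 1 one_ne_zero
  obtain ⟨B, hB1, hB2, hB3⟩ := D.maxOrth
    {z | z ∈ D.S ∧ z ≠ 0 ∧ ∃ s, ∀ s', s' ≠ s → Q s' (D.n z) z} (fun z hz => hz.2.1)
  have hσ : ∀ b : L, ∃ s, b ∈ B → ∀ s', s' ≠ s → Q s' (D.n b) b := by
    intro b
    by_cases hb : b ∈ B
    · obtain ⟨s, hs⟩ := (hB1 b hb).2.2
      exact ⟨s, fun _ => hs⟩
    · exact ⟨s1, fun h => absurd h hb⟩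
  choose σ hσ using hσ
  refine ⟨B, fun b x => ¬ Q (σ b) (D.n x) x, fun b hb => (hB1 b hb).1, hB2, ?_, ?_, ?_, ?_, ?_⟩
  · refine D.span_top _ fun z hz => ?_
    have hz0 := D.n_pos z hz
    have key : ∃ x ∈ Submodule.span K (B : Set L), D.n (∑ s, ε s * z - x) < D.n z := by
      refine Finset.sum_induction _ (fun w => ∃ x ∈ Submodule.span K (B : Set L),
        D.n (w - x) < D.n z) ?_ ⟨0, Submodule.zero_mem _, by simpa [D.n_zero] using hz0⟩ ?_
      · rintro w w' ⟨x, hx, hx'⟩ ⟨y, hy, hy'⟩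
        refine ⟨x + y, Submodule.add_mem _ hx hy, ?_⟩
        have : w + w' - (x + y) = (w - x) + (w' - y) := by ring
        rw [this]; exact D.n_add_lt hx' hy'
      · intro s _
        have hle : D.n (ε s * z) ≤ D.n z :=
          (D.n_mul _ _).trans (mul_le_of_le_one_left hz0.le (hε1 s))
        rcases hle.lt_or_eq with hlt | heq
        · exact ⟨0, Submodule.zero_mem _, by simpa using hlt⟩
        have hne : ε s * z ≠ 0 := by
          intro h
          rw [h, D.n_zero] at heq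
          exact hz0.ne heq
        obtain ⟨a, -, ha0, ha⟩ := D.frac (ε s * z)
        obtain ⟨c, hc⟩ := hB3 (a • (ε s * z)) ⟨ha, smul_ne_zero ha0 hne, s, fun s' hs' =>
          Qsmul _ _ _ fun y hy => by
            rw [mul_assoc]
            refine Pmul _ _ _ (hε2 s s' hs') ((D.n_mul _ _).trans ?_)
            rwa [heq] at hy⟩
        refine ⟨a⁻¹ • ∑ x ∈ B, c x • x, Submodule.smul_mem _ _ (Submodule.sum_mem _ fun x hx =>
          Submodule.smul_mem _ _ (Submodule.subset_span hx)), ?_⟩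
        have h1 : a • (ε s * z) - ∑ x ∈ B, c x • x =
            a • (ε s * z - a⁻¹ • ∑ x ∈ B, c x • x) := by
          rw [smul_sub, smul_smul, mul_inv_cancel₀ ha0, one_smul]
        rw [h1, D.n_smul, D.n_smul, heq] at hc
        exact lt_of_mul_lt_mul_left hc (D.v_nonneg a)
    obtain ⟨x, hx, hx'⟩ := key
    refine ⟨x, hx, ?_⟩
    have h1 : z - x = (1 - ∑ s, ε s) * z + (∑ s, ε s * z - x) := by
      rw [← Finset.sum_mul]; ring
    rw [h1]
    exact D.n_add_lt ((D.n_mul _ _).trans_lt (mul_lt_of_lt_one_left hz0 hε3)) hx'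
  · intro b h
    exact Pone (σ b) (by simpa using h 1 (by rw [D.n_one]; simp))
  · intro b x y hx hy
    simp only [Q, not_forall] at hx hy ⊢
    obtain ⟨u, hu, hu'⟩ := hx
    obtain ⟨w, hw, hw'⟩ := hy
    have h1 : ¬ P (σ b) (x * y * (u * w)) := by
      intro h
      have : x * y * (u * w) = (x * u) * (y * w) := by ring
      rw [this] at h
      rcases Pprime _ _ _ ((D.n_mul _ _).trans hu) ((D.n_mul _ _).trans hw) h with h | h
      · exact hu' h
      · exact hw' h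
    have h2 : D.n x * D.n y * (D.n u * D.n w) ≤ 1 := by
      have : D.n x * D.n y * (D.n u * D.n w) = (D.n x * D.n u) * (D.n y * D.n w) := by ring
      rw [this]
      exact mul_le_one₀ hu (mul_nonneg (D.n_nonneg _) (D.n_nonneg _)) hw
    refine ⟨⟨u * w, ?_, h1⟩, le_antisymm (D.n_mul _ _) ?_⟩
    · exact (mul_le_mul (D.n_mul _ _) (D.n_mul _ _) (D.n_nonneg _)
        (mul_nonneg (D.n_nonneg _) (D.n_nonneg _))).trans h2
    · have h3 : 1 ≤ D.n (x * y) * (D.n u * D.n w) := by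
        have h4 : 1 ≤ D.n (x * y * (u * w)) := not_lt.mp fun h => h1 (P0 _ _ h)
        exact h4.trans ((D.n_mul _ _).trans
          (mul_le_mul_of_nonneg_left (D.n_mul _ _) (D.n_nonneg _)))
      have h5 : 0 < D.n u * D.n w := by
        rcases (mul_nonneg (D.n_nonneg u) (D.n_nonneg w)).lt_or_eq with h | h
        · exact h
        · rw [← h] at h3; norm_num at h3
      exact le_of_mul_le_mul_right (h2.trans h3) h5
  · rintro b x hx rfl
    exact hx fun y _ => P0 _ _ (by rw [zero_mul, D.n_zero]; exact one_pos)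
  · intro κ I β a hβ hx hle
    obtain ⟨s, hs⟩ := Qex _ hx
    have hex : ∃ i ∈ I, ¬ Q s (D.n (∑ i ∈ I, a i • β i)) (a i • β i) := by
      by_contra h
      push Not at h
      exact hs (Finset.sum_induction _ (Q s (D.n (∑ i ∈ I, a i • β i))) (Qadd s _)
        (Qsmall _ _ _ (by rw [D.n_zero]; exact D.n_pos _ hx)) h)
    obtain ⟨i, hi, hi'⟩ := hex
    have heq : D.n (a i • β i) = D.n (∑ i ∈ I, a i • β i) :=
      le_antisymm (hle i hi) (not_lt.mp fun h => hi' (Qsmall _ _ _ h))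
    refine ⟨i, hi, heq, ?_⟩
    have : s = σ (β i) := by
      by_contra hne
      exact hi' (heq ▸ Qsmul _ _ _ (hσ _ (hβ i hi) s hne))
    rw [this] at hs; exact hs

end Data

end Pool.Agent.H.MP_286f1f_ag
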