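import Mathlib

set_option autoImplicit false

namespace Pool.Agent.H.MP_286f1f_ag

open Finset

lemma sep {d : ℕ} (hd : 0 < d) (Sg : ℕ → (Fin d → ℤ) → Prop) (h0 : Sg 0 0)
    (hadd : ∀ N g N' g', Sg N g → Sg N' g' → Sg (N + N') (g + g'))
    (hpos : ∀ N g, Sg N g → 0 ≤ g) {c e C : ℝ} (hc : 0 < c) (he : 0 < e)
    (hq : ∀ Q : ℕ, ∃ q : ℕ, Q ≤ q ∧ ∀ N g, Sg N g → c * q ≤ N → ∃ i, e * q - C ≤ g i)
    {c' : ℝ} (hc' : c < c') : ∃ u : Fin d → ℝ, (∀ i, 0 < u i) ∧ ∑ i, u i = 1 ∧
      ∀ N g, Sg N g → e * N / c' ≤ ∑ i, u i * g i := by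
  have hd' : (0 : ℝ) < d := by exact_mod_cast hd
  have hmul : ∀ (m : ℕ) N g, Sg N g → Sg (m * N) (m • g) := by
    intro m N g h
    induction m with
    | zero => simpa using h0
    | succ m ih => rw [Nat.succ_mul, succ_nsmul]; exact hadd _ _ _ _ ih h
  let W : Set (Fin d → ℝ) := {z | ∃ M : ℝ, ∀ t : ℝ, 0 ≤ t → ∃ N g, Sg N g ∧ t ≤ N ∧
    ∀ i, (g i : ℝ) ≤ t * z i + M}
  let U : Set (Fin d → ℝ) := {z | ∀ i, z i < e / c}
  have hW : Convex ℝ W := by
    rintro z ⟨M, hz⟩ z' ⟨M', hz'⟩ a b ha hb hab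
    refine ⟨M + M', fun t ht => ?_⟩
    obtain ⟨N, g, h1, h2, h3⟩ := hz (a * t) (by positivity)
    obtain ⟨N', g', h1', h2', h3'⟩ := hz' (b * t) (by positivity)
    refine ⟨N + N', g + g', hadd _ _ _ _ h1 h1', ?_, fun i => ?_⟩
    · push_cast
      have : t = a * t + b * t := by rw [← add_mul, hab, one_mul]
      linarith
    · have := h3 i
      have := h3' i
      simp only [Pi.add_apply, Pi.smul_apply, smul_eq_mul]
      push_cast
      linarith
  have hU : Convex ℝ U := by
    have : U = Set.pi Set.univ (fun _ => Set.Iio (e / c)) := by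
      ext z; simp [U, Set.mem_pi]
    rw [this]; exact convex_pi fun _ _ => convex_Iio _
  have hUo : IsOpen U := by
    have : U = Set.pi Set.univ (fun _ => Set.Iio (e / c)) := by
      ext z; simp [U, Set.mem_pi]
    rw [this]; exact isOpen_set_pi Set.finite_univ fun _ _ => isOpen_Iio
  have hdisj : Disjoint U W := by
    rw [Set.disjoint_left]
    rintro z hz ⟨M, hM⟩
    have : Nonempty (Fin d) := ⟨⟨0, hd⟩⟩
    obtain ⟨i0, hi0⟩ := Finite.exists_max z
    have hη : 0 < e - c * z i0 := by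
      have := hz i0
      rw [lt_div_iff₀ hc] at this; linarith
    obtain ⟨Q, hQ⟩ := exists_nat_gt ((M + C) / (e - c * z i0))
    obtain ⟨q, hq1, hq2⟩ := hq Q
    obtain ⟨N, g, h1, h2, h3⟩ := hM (c * q) (by positivity)
    obtain ⟨i, hi⟩ := hq2 N g h1 h2
    have h4 := h3 i
    have h5 : c * q * z i ≤ c * q * z i0 := mul_le_mul_of_nonneg_left (hi0 i) (by positivity)
    have h6 : (Q : ℝ) ≤ q := by exact_mod_cast hq1
    rw [div_lt_iff₀ hη] at hQ
    nlinarith
  have hmemW : ∀ N g, Sg N g → 0 < N → (fun i => (g i : ℝ) / N) ∈ W := by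
    intro N g h hN
    have hN' : (0 : ℝ) < N := by exact_mod_cast hN
    have hg : ∀ i, (0 : ℝ) ≤ g i := fun i => by exact_mod_cast hpos N g h i
    refine ⟨∑ i, (g i : ℝ), fun t ht => ⟨_, _, hmul ⌈t / N⌉₊ N g h, ?_, fun i => ?_⟩⟩
    · push_cast
      rw [← div_le_iff₀ hN']; exact Nat.le_ceil _
    · have h1 := (Nat.ceil_lt_add_one (div_nonneg ht hN'.le)).le
      have h2 : (g i : ℝ) ≤ ∑ i, (g i : ℝ) :=
        Finset.single_le_sum (f := fun i => (g i : ℝ)) (fun i _ => hg i) (mem_univ i)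
      rw [Pi.smul_apply, nsmul_eq_mul]
      push_cast
      have h3 := mul_le_mul_of_nonneg_right h1 (hg i)
      have h4 : t * ((g i : ℝ) / N) = t / N * g i := by ring
      linarith
  by_cases hex : ∃ N g, Sg N g ∧ 0 < N
  swap
  · push Not at hex
    refine ⟨fun _ => 1 / d, fun _ => by positivity, by simp; field_simp, fun N g h => ?_⟩
    have : N = 0 := by have := hex N g h; omega
    subst this
    simp only [Nat.cast_zero, mul_zero, zero_div]
    exact Finset.sum_nonneg fun i _ => mul_nonneg (by positivity) (by exact_mod_cast hpos _ g h i)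
  obtain ⟨N0, g0, hN0, hN0'⟩ := hex
  obtain ⟨f, τ, hf1, hf2⟩ := geometric_hahn_banach_open hU hUo hW hdisj
  let u : Fin d → ℝ := fun i => f (Pi.single i 1)
  have hf : ∀ z, f z = ∑ i, u i * z i := by
    intro z
    conv_lhs => rw [← Finset.univ_sum_single z, map_sum]
    refine Finset.sum_congr rfl fun i _ => ?_
    have : (Pi.single i (z i) : Fin d → ℝ) = z i • Pi.single i 1 := by
      rw [← Pi.single_smul]; simp
    rw [this, map_smul, smul_eq_mul, mul_comm]
  have hec : 0 < e / c := div_pos he hc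
  have hu0 : ∀ i, 0 ≤ u i := by
    intro i
    by_contra hneg
    push Not at hneg
    have h1 := hf1 (-(((|τ| + 1) / (-u i)) • Pi.single i 1)) (by
      intro j
      have : 0 ≤ ((((|τ| + 1) / (-u i)) • Pi.single i 1 : Fin d → ℝ)) j := by
        rw [Pi.smul_apply, smul_eq_mul]
        refine mul_nonneg (div_nonneg (by positivity) (by linarith)) ?_
        rw [Pi.single_apply]; split_ifs <;> norm_num
      rw [Pi.neg_apply]; linarith)
    rw [map_neg, map_smul, smul_eq_mul] at h1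
    have h2 : -((|τ| + 1) / (-u i) * u i) = |τ| + 1 := by
      have := hneg.ne
      field_simp
    have h3 := le_abs_self τ
    change -((|τ| + 1) / (-u i) * u i) < τ at h1
    linarith
  have hσ0 : 0 ≤ ∑ i, u i := Finset.sum_nonneg fun i _ => hu0 i
  have hσ : 0 < ∑ i, u i := by
    rcases hσ0.lt_or_eq with h | h
    · exact h
    · have hz : ∀ i, u i = 0 := fun i =>
        (Finset.sum_eq_zero_iff_of_nonneg fun i _ => hu0 i).mp h.symm i (mem_univ i)
      have h1 := hf1 0 (fun i => hec)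
      have h2 := hf2 _ (hmemW _ _ hN0 hN0')
      rw [hf] at h1 h2
      simp [hz] at h1 h2
      linarith
  set σ := ∑ i, u i with hσdef
  have hτ : e / c * σ ≤ τ := by
    refine le_of_forall_pos_le_add fun η hη => ?_
    have h1 := hf1 (fun _ => e / c - η / σ) (fun i => by
      have := div_pos hη hσ
      show e / c - η / σ < e / c
      linarith)
    rw [hf, ← Finset.sum_mul, ← hσdef, mul_sub, mul_div_cancel₀ _ hσ.ne'] at h1
    linarith
  have hc'0 : 0 < c' := hc.trans hc'
  refine ⟨fun i => c / c' * (u i / σ) + (1 - c / c') / d, fun i => ?_, ?_, fun N g h => ?_⟩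
  · have h1 : c / c' < 1 := (div_lt_one hc'0).mpr hc'
    have := hu0 i
    have : 0 < (1 - c / c') / d := div_pos (by linarith) hd'
    positivity
  · rw [Finset.sum_add_distrib, ← Finset.mul_sum, ← Finset.sum_div, ← hσdef, div_self hσ.ne']
    simp
    field_simp
    ring
  · have hg : ∀ i, (0 : ℝ) ≤ g i := fun i => by exact_mod_cast hpos N g h i
    have h1 : c / c' < 1 := (div_lt_one hc'0).mpr hc'
    have h2 : e * N / c * σ ≤ ∑ i, u i * g i := by
      rcases Nat.eq_zero_or_pos N with rfl | hN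
      · simp only [Nat.cast_zero, mul_zero, zero_div, zero_mul]
        exact Finset.sum_nonneg fun i _ => mul_nonneg (hu0 i) (hg i)
      · have hN' : (0 : ℝ) < N := by exact_mod_cast hN
        have h3 := hτ.trans (hf2 _ (hmemW _ _ h hN))
        rw [hf] at h3
        simp only [← mul_div_assoc] at h3
        rw [← Finset.sum_div, le_div_iff₀ hN'] at h3
        calc e * N / c * σ = e / c * σ * N := by ring
          _ ≤ _ := h3
    calc e * N / c' = c / c' / σ * (e * N / c * σ) := by field_simp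
      _ ≤ c / c' / σ * ∑ i, u i * g i := mul_le_mul_of_nonneg_left h2 (by positivity)
      _ = ∑ i, c / c' * (u i / σ) * g i := by
        rw [Finset.mul_sum]; exact Finset.sum_congr rfl fun i _ => by ring
      _ ≤ _ := Finset.sum_le_sum fun i _ => mul_le_mul_of_nonneg_right
        (le_add_of_nonneg_right (div_nonneg (by linarith) hd'.le)) (hg i)

lemma tele {u : ℝ} (hu : 0 < u) (m : ℕ) (τ : ℝ) (J : ℕ) (h : ∀ j < J, u * j < τ) :
    max τ 0 ^ (m + 1) ≤ max (τ - u * J) 0 ^ (m + 1) +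
      (m + 1) * u * ∑ j ∈ range J, (τ - u * j) ^ m := by
  induction J with
  | zero => simp
  | succ J ih =>
    have h1 := ih fun j hj => h j (by omega)
    have h2 := h J (by omega)
    rw [Finset.sum_range_succ, mul_add]
    rw [max_eq_left (by linarith : 0 ≤ τ - u * J)] at h1
    set a := τ - u * J with ha
    set b := max (τ - u * ((J + 1 : ℕ) : ℝ)) 0 with hb
    have hb0 : 0 ≤ b := le_max_right _ _
    have hb1 : a - u ≤ b := by
      refine le_trans (le_of_eq ?_) (le_max_left _ _)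
      push_cast; ring
    have hb2 : b ≤ a := max_le (by push_cast; linarith) (by linarith)
    have h3 := abs_pow_sub_pow_le a b (m + 1)
    rw [abs_of_nonneg (sub_nonneg.mpr hb2), abs_of_nonneg (hb0.trans hb2), abs_of_nonneg hb0,
      max_eq_left hb2, Nat.add_sub_cancel] at h3
    have h4 := le_abs_self (a ^ (m + 1) - b ^ (m + 1))
    have h5 : (a - b) * ((m + 1 : ℕ) : ℝ) * a ^ m ≤ u * ((m + 1 : ℕ) : ℝ) * a ^ m := by
      have := hb0.trans hb2
      gcongr
      linarith
    push_cast at h3 h5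
    linarith

lemma lattice (d : ℕ) : ∀ (u : Fin d → ℝ), (∀ i, 0 < u i) → ∀ τ : ℝ, 0 < τ →
    ∃ T : Finset (Fin d → ℕ), (∀ γ ∈ T, ∑ i, u i * γ i < τ) ∧
      τ ^ d ≤ d.factorial * (∏ i, u i) * T.card := by
  classical
  induction d with
  | zero => intro u _ τ hτ; exact ⟨univ, by simpa using hτ, by simp⟩
  | succ d ih =>
    intro u hu τ hτ
    have hu0 := hu 0
    set J := ⌈τ / u 0⌉₊
    have hJ : ∀ j < J, u 0 * j < τ := fun j hj => by
      have := Nat.lt_ceil.mp hj
      rwa [lt_div_iff₀ hu0, mul_comm] at this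
    have hJ' : τ - u 0 * J ≤ 0 := by
      have := Nat.le_ceil (τ / u 0)
      rw [div_le_iff₀ hu0] at this
      linarith
    have hex : ∀ j : ℕ, ∃ T : Finset (Fin d → ℕ), j < J →
        (∀ γ ∈ T, ∑ i, u (Fin.succ i) * γ i < τ - u 0 * j) ∧
        (τ - u 0 * j) ^ d ≤ d.factorial * (∏ i, u (Fin.succ i)) * T.card := by
      intro j
      by_cases hj : j < J
      · obtain ⟨T, hT⟩ := ih (fun i => u (Fin.succ i)) (fun i => hu _) _ (sub_pos.mpr (hJ j hj))
        exact ⟨T, fun _ => hT⟩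
      · exact ⟨∅, fun h => absurd h hj⟩
    choose T hT using hex
    let F : (Σ _ : ℕ, Fin d → ℕ) → (Fin (d + 1) → ℕ) := fun p => Fin.cons p.1 p.2
    have hF : Function.Injective F := by
      rintro ⟨a, b⟩ ⟨a', b'⟩ h
      obtain ⟨h1, h2⟩ := Fin.cons_injective2 h
      simp only at h1 h2
      subst h1 h2; rfl
    refine ⟨((range J).sigma T).image F, ?_, ?_⟩
    · intro γ hγ
      obtain ⟨⟨j, γ'⟩, hp, rfl⟩ := Finset.mem_image.mp hγ
      rw [Finset.mem_sigma, Finset.mem_range] at hp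
      have := (hT j hp.1).1 γ' hp.2
      rw [Fin.sum_univ_succ]
      simp only [F, Fin.cons_zero, Fin.cons_succ]
      linarith
    · rw [Finset.card_image_of_injective _ hF, Finset.card_sigma, Fin.prod_univ_succ]
      have h1 := tele hu0 d τ J hJ
      rw [max_eq_left hτ.le, max_eq_right hJ', zero_pow (Nat.succ_ne_zero d), zero_add] at h1
      refine h1.trans ?_
      have h2 : ∑ j ∈ range J, (τ - u 0 * j) ^ d ≤
          ∑ j ∈ range J, d.factorial * (∏ i, u (Fin.succ i)) * (T j).card :=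
        Finset.sum_le_sum fun j hj => (hT j (Finset.mem_range.mp hj)).2
      rw [← Finset.mul_sum] at h2
      push_cast [Nat.factorial_succ]
      calc ((d : ℝ) + 1) * u 0 * ∑ j ∈ range J, (τ - u 0 * j) ^ d
          ≤ (d + 1) * u 0 * (d.factorial * (∏ i, u (Fin.succ i)) *
            ∑ j ∈ range J, ((T j).card : ℝ)) := mul_le_mul_of_nonneg_left h2 (by positivity)
        _ = _ := by ring

lemma lattice' {d : ℕ} (hd : 0 < d) (u : Fin d → ℝ) (hu : ∀ i, 0 < u i) (hs : ∑ i, u i = 1)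
    (τ : ℝ) (hτ : 0 < τ) : ∃ T : Finset (Fin d → ℕ), (∀ γ ∈ T, ∑ i, u i * γ i < τ) ∧
      (τ * d) ^ d / d.factorial ≤ T.card := by
  obtain ⟨T, hT1, hT2⟩ := lattice d u hu τ hτ
  refine ⟨T, hT1, ?_⟩
  have hd' : (0 : ℝ) < d := by exact_mod_cast hd
  have h1 := Real.geom_mean_le_arith_mean univ (fun _ : Fin d => (1 : ℝ)) u
    (fun _ _ => zero_le_one) (by simpa using hd) (fun i _ => (hu i).le)
  simp only [Real.rpow_one, one_mul, hs, Finset.sum_const, Finset.card_univ, Fintype.card_fin,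
    nsmul_eq_mul, mul_one] at h1
  have hP : 0 < ∏ i, u i := Finset.prod_pos fun i _ => hu i
  have h2 : ∏ i, u i ≤ (1 / (d : ℝ)) ^ d := by
    have := pow_le_pow_left₀ (by positivity) h1 d
    rwa [Real.rpow_inv_natCast_pow hP.le hd.ne'] at this
  rw [div_le_iff₀ (by positivity), mul_pow]
  calc τ ^ d * (d : ℝ) ^ d ≤ d.factorial * (∏ i, u i) * T.card * (d : ℝ) ^ d := by gcongr
    _ ≤ d.factorial * (1 / (d : ℝ)) ^ d * T.card * (d : ℝ) ^ d := by gcongr
    _ = _ := by rw [one_div_pow]; field_simp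

end Pool.Agent.H.MP_286f1f_ag
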