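import Pool.Agent.H.MP_286f1f_ag.D3
import Pool.Agent.H.MP_286f1f_ag.E

set_option autoImplicit false

namespace Pool.Agent.H.MP_286f1f_ag

open Finset

variable {d : ℕ} {k K L : Type} [Field k] [Field K] [Field L] [Algebra k K] [Algebra K L]
  (D : Data d k K L)

namespace Data

lemma n_le_sum {ι : Type} (s : Finset ι) (f : ι → L)
    (h : ∀ i ∈ s, ∀ j ∈ s, i ≠ j → D.n (f i) = D.n (f j) → D.n (f i) = 0) :
    ∀ i ∈ s, D.n (f i) ≤ D.n (∑ j ∈ s, f j) := by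
  classical
  intro i hi
  obtain ⟨i0, hi0, hmax⟩ := Finset.exists_max_image s (fun i => D.n (f i)) ⟨i, hi⟩
  rcases (D.n_nonneg (f i0)).lt_or_eq with hpos | hz
  · refine (hmax i hi).trans (le_of_eq (D.n_eq_of_lt ?_).symm)
    rw [← Finset.add_sum_erase _ _ hi0, sub_add_cancel_left, D.n_neg]
    refine D.n_sum_lt _ _ hpos fun j hj => ?_
    have hj' := Finset.mem_erase.mp hj
    refine lt_of_le_of_ne (hmax j hj'.2) fun heq => ?_
    have := h j hj'.2 i0 hi0 hj'.1 heq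
    rw [heq] at this
    exact hpos.ne' this
  · exact ((hmax i hi).trans hz.ge).trans (D.n_nonneg _)

lemma denom (F : Finset K) : ∃ δ ∈ D.A, δ ≠ 0 ∧ ∀ a ∈ F, δ * a ∈ D.A := by
  classical
  induction F using Finset.induction_on with
  | empty => exact ⟨1, D.A.one_mem, one_ne_zero, by simp⟩
  | insert a F _ ih =>
    obtain ⟨δ, h1, h2, h3⟩ := ih
    obtain ⟨b, hb1, hb2, hb3⟩ := D.fracK a
    refine ⟨δ * b, D.A.mul_mem h1 hb1, mul_ne_zero h2 hb2, fun x hx => ?_⟩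
    rcases Finset.mem_insert.mp hx with rfl | hx
    · rw [mul_assoc]; exact D.A.mul_mem h1 hb3
    · rw [mul_comm δ, mul_assoc]; exact D.A.mul_mem hb1 (h3 x hx)

lemma exists_delta [FiniteDimensional K L] (B : Finset L)
    (hB : Submodule.span K (B : Set L) = ⊤) : ∃ δ ∈ D.A, δ ≠ 0 ∧
      ∀ z ∈ D.S, ∃ a : L → K, (∀ b ∈ B, a b ∈ D.A) ∧ δ • z = ∑ b ∈ B, a b • b := by
  classical
  obtain ⟨T, -, hX⟩ := D.exists_strict
  have : ∀ τ : L, ∃ m : L → K, ∑ b ∈ B, m b • b = τ := fun τ => by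
    obtain ⟨m, -, hm⟩ := Submodule.mem_span_finset.mp
      (show τ ∈ Submodule.span K (B : Set L) by rw [hB]; trivial)
    exact ⟨m, hm⟩
  choose m hm using this
  obtain ⟨δ, h1, h2, h3⟩ := D.denom ((T ×ˢ B).image fun p => m p.1 p.2)
  refine ⟨δ, h1, h2, fun z hz => ?_⟩
  obtain ⟨a, ha1, ha2⟩ := hX z hz
  refine ⟨fun b => ∑ τ ∈ T, a τ * (δ * m τ b), fun b hb => D.A.sum_mem fun τ hτ =>
    D.A.mul_mem (ha1 τ hτ).1 (h3 _ (Finset.mem_image.mpr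
      ⟨(τ, b), Finset.mem_product.mpr ⟨hτ, hb⟩, rfl⟩)), ?_⟩
  simp only [Finset.sum_smul]
  rw [Finset.sum_comm, ha2, Finset.smul_sum]
  refine Finset.sum_congr rfl fun τ _ => ?_
  have : δ • a τ • τ = δ • a τ • ∑ b ∈ B, m τ b • b := by rw [hm]
  rw [this, Finset.smul_sum, Finset.smul_sum]
  refine Finset.sum_congr rfl fun b _ => ?_
  rw [smul_smul, smul_smul]; congr 1; ring

theorem main_abs [FiniteDimensional K L] (hd : 0 < d) (𝔞 : ℕ → Set L)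
    (hS : ∀ N, ∀ x ∈ 𝔞 N, x ∈ D.S) (h1 : (1 : L) ∈ 𝔞 0)
    (hmul : ∀ N N' x y, x ∈ 𝔞 N → y ∈ 𝔞 N' → x * y ∈ 𝔞 (N + N')) {c c' : ℝ} (hc : 0 < c)
    (hc' : c < c') (hq : ∀ Q : ℕ, ∃ q : ℕ, Q ≤ q ∧ ∀ N : ℕ, c * q ≤ N → ∀ x ∈ 𝔞 N,
      ∃ s : Fin d → L, (∀ i, s i ∈ D.S) ∧ x = ∑ i, D.Y (Pi.single i (q : ℤ)) • s i) :
    ∃ (B : Finset L) (δ : K) (C : ℝ), (∀ b ∈ B, b ∈ D.S) ∧ δ ∈ D.A ∧ δ ≠ 0 ∧
      (∀ z ∈ D.S, ∃ a : L → K, (∀ b ∈ B, a b ∈ D.A) ∧ δ • z = ∑ b ∈ B, a b • b) ∧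
      ∀ n : ℕ, C < n / c' → ∃ I : Finset (Σ _ : L, Fin d → ℕ), (∀ i ∈ I, i.1 ∈ B) ∧
        B.card * (((n / c' - C) * d) ^ d / d.factorial) ≤ I.card ∧
        ∀ cf : (Σ _ : L, Fin d → ℕ) → k,
          ∑ i ∈ I, (algebraMap k K (cf i) * D.Y (fun j => i.2 j)) • i.1 ∈ 𝔞 n →
          ∀ i ∈ I, cf i = 0 := by
  classical
  obtain ⟨B, G, hB1, hB2, hB3, G1, Gmul, Gne, Gsum⟩ := D.adapted
  obtain ⟨δ, hδ1, hδ2, hδ3⟩ := D.exists_delta B hB3
  have hβ : ∀ b : L, ∃ g, b ∈ B → 0 ≤ g ∧ D.n b ^ D.e = D.E g := fun b => by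
    by_cases hb : b ∈ B
    · obtain ⟨g, hg⟩ := D.valS b (hB1 b hb) (hB2.1 b hb)
      exact ⟨g, fun _ => hg⟩
    · exact ⟨0, fun h => absurd h hb⟩
  choose β hβ using hβ
  obtain ⟨-, gδ, -, hgδ, -⟩ := D.lt' hδ2
  have he : (0 : ℝ) < D.e := by exact_mod_cast D.e_pos
  have he1 : (1 : ℝ) ≤ D.e := by exact_mod_cast D.e_pos
  let Sg : L → ℕ → (Fin d → ℤ) → Prop := fun b N g => ∃ x ∈ 𝔞 N, G b x ∧ D.n x ^ D.e = D.E g
  have hu : ∀ b : L, ∃ u : Fin d → ℝ, (∀ i, 0 < u i) ∧ ∑ i, u i = 1 ∧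
      ∀ N g, Sg b N g → D.e * N / c' ≤ ∑ i, u i * g i := by
    intro b
    refine sep hd (Sg b) ⟨1, h1, G1 b, by rw [D.n_one, D.E_zero, one_pow]⟩ ?_ ?_ hc he
      (C := D.e * ∑ i, |(gδ i : ℝ)|) ?_ hc'
    · rintro N g N' g' ⟨x, hx1, hx2, hx3⟩ ⟨y, hy1, hy2, hy3⟩
      exact ⟨x * y, hmul _ _ _ _ hx1 hy1, (Gmul b x y hx2 hy2).1, by
        rw [(Gmul b x y hx2 hy2).2, mul_pow, hx3, hy3, D.E_add]⟩
    · rintro N g ⟨x, hx1, hx2, hx3⟩
      obtain ⟨g', hg1, hg2⟩ := D.valS x (hS _ _ hx1) (Gne _ _ hx2)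
      rwa [D.E_inj (hx3.symm.trans hg2)]
    · intro Q
      obtain ⟨q, hq1, hq2⟩ := hq Q
      refine ⟨q, hq1, ?_⟩
      rintro N g ⟨x, hx1, hx2, hx3⟩ hN
      obtain ⟨s, hs1, hs2⟩ := hq2 N hN x hx1
      choose a ha1 ha2 using fun i => hδ3 (s i) (hs1 i)
      let f : L → K := fun b => ∑ i, D.Y (Pi.single i (q : ℤ)) * a i b
      have hx : δ • x = ∑ b ∈ B, f b • b := by
        simp only [f, Finset.sum_smul]
        rw [Finset.sum_comm, hs2, Finset.smul_sum]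
        refine Finset.sum_congr rfl fun i _ => ?_
        rw [smul_comm, ha2 i, Finset.smul_sum]
        simp only [smul_smul]
      have hx0 : 0 < D.n (δ • x) := D.n_pos _ (smul_ne_zero hδ2 (Gne _ _ hx2))
      have hex : ∃ b' ∈ B, D.n (f b' • b') = D.n (δ • x) := by
        by_contra hcon
        push Not at hcon
        have := D.n_sum_lt B (fun b => f b • b) hx0 fun b' hb' =>
          lt_of_le_of_ne (by rw [hx]; exact hB2.2 f b' hb') (hcon b' hb')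
        rw [← hx] at this
        exact lt_irrefl _ this
      obtain ⟨b', hb', heq⟩ := hex
      have hf0 : f b' ≠ 0 := by
        intro h
        rw [h, zero_smul, D.n_zero] at heq
        exact hx0.ne heq
      obtain ⟨γ, i, hγ1, hγ2⟩ := D.supp q (fun i => a i b') (fun i => ha1 i b' hb') hf0
      have hE : D.E (D.e • γ + β b') = D.E (D.e • gδ + g) := by
        rw [D.E_add, D.E_add, D.E_nsmul, D.E_nsmul, ← hγ2, ← (hβ b' hb').2, ← hgδ, ← hx3,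
          ← mul_pow, ← mul_pow, ← D.n_smul, ← D.n_smul, ← heq]
      have h2 := congrFun (D.E_inj hE) i
      rw [Pi.add_apply, Pi.add_apply, Pi.smul_apply, Pi.smul_apply, nsmul_eq_mul,
        nsmul_eq_mul] at h2
      have h3 : (D.e : ℝ) * γ i + β b' i = D.e * gδ i + g i := by exact_mod_cast h2
      have h4 : (0 : ℝ) ≤ β b' i := by exact_mod_cast (hβ b' hb').1 i
      have h5 : (q : ℝ) ≤ γ i := by exact_mod_cast hγ1
      have h6 : (gδ i : ℝ) ≤ ∑ i, |(gδ i : ℝ)| := (le_abs_self _).trans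
        (Finset.single_le_sum (f := fun i => |(gδ i : ℝ)|) (fun i _ => abs_nonneg _) (mem_univ i))
      refine ⟨i, ?_⟩
      nlinarith
  choose u hu1 hu2 hu3 using hu
  set C : ℝ := ∑ b ∈ B, ∑ i, (β b i : ℝ) with hC
  have hβ0 : ∀ b ∈ B, ∀ i, (0 : ℝ) ≤ β b i := fun b hb i => by exact_mod_cast (hβ b hb).1 i
  have hβC : ∀ b ∈ B, ∀ i, (β b i : ℝ) ≤ C := fun b hb i =>
    (Finset.single_le_sum (f := fun i => (β b i : ℝ)) (fun i _ => hβ0 b hb i) (mem_univ i)).trans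
      (Finset.single_le_sum (f := fun b => ∑ i, (β b i : ℝ))
        (fun b hb => Finset.sum_nonneg fun i _ => hβ0 b hb i) hb)
  have hC0 : 0 ≤ C := Finset.sum_nonneg fun b hb => Finset.sum_nonneg fun i _ => hβ0 b hb i
  refine ⟨B, δ, C, hB1, hδ1, hδ2, hδ3, fun n hn => ?_⟩
  choose T hT1 hT2 using fun b => lattice' hd (u b) (hu1 b) (hu2 b) _ (sub_pos.mpr hn)
  refine ⟨B.sigma T, fun i hi => (Finset.mem_sigma.mp hi).1, ?_, fun cf hcf i0 hi0 => ?_⟩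
  · rw [Finset.card_sigma]
    push_cast
    rw [← nsmul_eq_mul, ← Finset.sum_const]
    exact Finset.sum_le_sum fun b _ => hT2 b
  by_contra hne
  have hle : ∀ i ∈ B.sigma T, D.n ((algebraMap k K (cf i) * D.Y (fun j => i.2 j)) • i.1) ≤
      D.n (∑ i ∈ B.sigma T, (algebraMap k K (cf i) * D.Y (fun j => i.2 j)) • i.1) := by
    rintro ⟨b, γ⟩ hi
    rw [Finset.mem_sigma] at hi
    rw [Finset.sum_sigma]
    simp only [← Finset.sum_smul]
    refine le_trans ?_ (hB2.2 (fun b => ∑ γ ∈ T b, algebraMap k K (cf ⟨b, γ⟩) *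
      D.Y (fun j => γ j)) b hi.1)
    rw [Finset.sum_smul]
    refine D.n_le_sum (T b) (fun γ => (algebraMap k K (cf ⟨b, γ⟩) * D.Y (fun j => γ j)) • b)
      ?_ γ hi.2
    intro γ1 _ γ2 _ hne heq
    by_cases hc1 : cf ⟨b, γ1⟩ = 0
    · simp [hc1, D.n_zero]
    by_cases hc2 : cf ⟨b, γ2⟩ = 0
    · rw [heq]; simp [hc2, D.n_zero]
    exfalso
    simp only [D.n_smul, D.v_mul, D.v_k _ hc1, D.v_k _ hc2, one_mul, D.v_Y] at heq
    have := D.E_inj (mul_right_cancel₀ (D.n_pos b (hB2.1 b hi.1)).ne' heq)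
    apply hne
    funext j
    exact_mod_cast congrFun this j
  have hx0 : ∑ i ∈ B.sigma T, (algebraMap k K (cf i) * D.Y (fun j => i.2 j)) • i.1 ≠ 0 := by
    intro h
    have := hle i0 hi0
    rw [h, D.n_zero] at this
    exact absurd (D.n_pos _ (smul_ne_zero (mul_ne_zero ((_root_.map_ne_zero _).mpr hne)
      (D.Y_ne _)) (hB2.1 _ (Finset.mem_sigma.mp hi0).1))) (not_lt.mpr this)
  obtain ⟨⟨b, γ⟩, hi, heq, hG⟩ := Gsum _ (B.sigma T) (fun i => i.1)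
    (fun i => algebraMap k K (cf i) * D.Y (fun j => i.2 j))
    (fun i hi => (Finset.mem_sigma.mp hi).1) hx0 hle
  rw [Finset.mem_sigma] at hi
  have hc1 : cf ⟨b, γ⟩ ≠ 0 := by
    intro h
    have := D.n_pos _ hx0
    rw [← heq] at this
    simp [h, D.n_zero] at this
  have h2 := hu3 b n (D.e • (fun j => (γ j : ℤ)) + β b) ⟨_, hcf, hG, by
    rw [← heq, D.n_smul, D.v_mul, D.v_k _ hc1, one_mul, D.v_Y, mul_pow, D.E_add, D.E_nsmul,
      (hβ b hi.1).2]⟩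
  have h3 := hT1 b γ hi.2
  have h4 : ∑ i, u b i * (((D.e • (fun j => (γ j : ℤ)) + β b) i : ℤ) : ℝ) =
      D.e * ∑ i, u b i * γ i + ∑ i, u b i * β b i := by
    rw [Finset.mul_sum, ← Finset.sum_add_distrib]
    refine Finset.sum_congr rfl fun i _ => ?_
    rw [Pi.add_apply, Pi.smul_apply, nsmul_eq_mul]
    push_cast; ring
  have h5 : ∑ i, u b i * β b i ≤ C := by
    calc ∑ i, u b i * β b i ≤ ∑ i, u b i * C := Finset.sum_le_sum fun i _ =>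
          mul_le_mul_of_nonneg_left (hβC b hi.1 i) (hu1 b i).le
      _ = C := by rw [← Finset.sum_mul, hu2, one_mul]
  rw [h4, mul_div_assoc] at h2
  nlinarith

end Data

end Pool.Agent.H.MP_286f1f_ag
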