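import Pool.Agent.H.MP_286f1f_ag.P
import Pool.Agent.H.MP_286f1f_ag.C2
import Pool.Agent.H.MP_286f1f_ag.D4

set_option autoImplicit false

namespace Pool.Agent.H.MP_286f1f_ag

open Finset Filter Topology MvPowerSeries

variable {d : ℕ} {k : Type} [Field k]

theorem dom0 {S K L : Type} [CommRing S] [IsDomain S] [Field K]
    [Field L] [Algebra (MvPowerSeries (Fin d) k) S] [Module.Finite (MvPowerSeries (Fin d) k) S]
    [Algebra (MvPowerSeries (Fin d) k) K] [IsFractionRing (MvPowerSeries (Fin d) k) K]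
    [Algebra S L] [IsFractionRing S L] [Algebra K L] [Algebra (MvPowerSeries (Fin d) k) L]
    [IsScalarTower (MvPowerSeries (Fin d) k) K L] [IsScalarTower (MvPowerSeries (Fin d) k) S L]
    [FiniteDimensional K L] [Algebra k K] [IsScalarTower k (MvPowerSeries (Fin d) k) K]
    [Algebra k S] [IsScalarTower k (MvPowerSeries (Fin d) k) S] (hd : 0 < d)
    (hk : ∀ m : Ideal S, m.IsMaximal → Function.Surjective (algebraMap k (S ⧸ m)))
    (a : Ideal S) {c c' : ℝ} (hc : 0 < c) (hc' : c < c')
    (hq : ∀ Q : ℕ, ∃ q : ℕ, Q ≤ q ∧ ∀ N : ℕ, c * q ≤ N → a ^ N ≤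
      Ideal.span (Set.range fun i => algebraMap (MvPowerSeries (Fin d) k) S (X i) ^ q)) :
    ∃ r : ℕ, UB d (lam (mX d k) S) r ∧ LB d (lam a S) (r * (d / c') ^ d) := by
  classical
  obtain ⟨D, hA', hS, hY⟩ := exists_data (d := d) (k := k) (S := S) (K := K) (L := L)
  set φ := algebraMap (MvPowerSeries (Fin d) k) K with hφ
  set ψ := algebraMap S L with hψ
  have hψi : Function.Injective ψ := IsFractionRing.injective _ _
  have hsm : ∀ (f : MvPowerSeries (Fin d) k) (s : S), φ f • ψ s = ψ (f • s) := fun f s => by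
    rw [hφ, algebraMap_smul, Algebra.smul_def, Algebra.smul_def, map_mul,
      ← IsScalarTower.algebraMap_apply]
  obtain ⟨B, δ, C, hB, hδ1, hδ2, hδ3, hI⟩ := D.main_abs hd (fun N => ψ '' (a ^ N : Ideal S))
    (by rintro N _ ⟨x, -, rfl⟩; rw [hS]; exact ⟨x, rfl⟩) ⟨1, by simp, map_one _⟩
    (by
      rintro N N' _ _ ⟨x, hx, rfl⟩ ⟨y, hy, rfl⟩
      exact ⟨x * y, by rw [pow_add]; exact Ideal.mul_mem_mul hx hy, map_mul _ _ _⟩) hc hc'
    (by
      intro Q
      obtain ⟨q, hq1, hq2⟩ := hq Q
      refine ⟨q, hq1, ?_⟩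
      rintro N hN _ ⟨x, hx, rfl⟩
      obtain ⟨s, hs⟩ := Ideal.mem_span_range_iff_exists_fun.mp (hq2 N hN hx)
      refine ⟨fun i => ψ (s i), fun i => by rw [hS]; exact ⟨_, rfl⟩, ?_⟩
      rw [← hs, map_sum]
      refine Finset.sum_congr rfl fun i _ => ?_
      have h1 : (Pi.single i (q : ℤ) : Fin d → ℤ) = fun j => ((Pi.single i q : Fin d → ℕ) j : ℤ) := by
        funext j
        by_cases h : j = i
        · subst h; simp
        · simp [Pi.single_eq_of_ne h]
      rw [h1, hY, hsm, Finset.prod_eq_single i (fun j _ hj => by simp [Pi.single_eq_of_ne hj])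
        (by simp), Algebra.smul_def, mul_comm]
      simp)
  rw [hS] at hB hδ3
  rw [hA'] at hδ1 hδ3
  obtain ⟨δ0, rfl⟩ := hδ1
  choose! s hs using hB
  refine ⟨B.card, ?_, ?_⟩
  · let f : (B → MvPowerSeries (Fin d) k) →ₗ[MvPowerSeries (Fin d) k] S :=
      Fintype.linearCombination _ fun b => s b.1
    have h1 : UB d (lam (mX d k) (B → MvPowerSeries (Fin d) k)) B.card := by
      have := (UB_A (d := d) (k := k)).nmul B.card
      rw [mul_one] at this
      refine this.mono fun n => ?_
      simpa using lam_gen (mX d k)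
        (fun i : B => LinearMap.single (MvPowerSeries (Fin d) k) (fun _ => MvPowerSeries (Fin d) k) i)
        (fun x => ⟨x, (Finset.univ_sum_single x).symm⟩) n
    have h2 : UB d (lam (mX d k) (S ⧸ LinearMap.range f)) 0 := by
      refine UB_tors' (δ := δ0) (by rintro rfl; simp at hδ2) fun x => ?_
      obtain ⟨z, rfl⟩ := Submodule.mkQ_surjective _ x
      rw [← map_smul, Submodule.mkQ_apply, Submodule.Quotient.mk_eq_zero]
      obtain ⟨e, he1, he2⟩ := hδ3 (ψ z) ⟨z, rfl⟩
      choose! e0 he0 using he1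
      refine ⟨fun b => e0 b.1, hψi ?_⟩
      rw [← hsm, he2, Fintype.linearCombination_apply, map_sum, ← Finset.sum_coe_sort B]
      exact Finset.sum_congr rfl fun b _ => by rw [← hsm, he0 _ b.2, hs _ b.2]
    have h3 := h1.add h2
    rw [add_zero] at h3
    exact h3.mono (lam_sub _ f _ (Submodule.mkQ_surjective _) (LinearMap.exact_map_mkQ_range f))
  · intro ρ hρ
    have hc'0 : 0 < c' := hc.trans hc'
    have h1 := (ev (d / c') (-C * d) d).const_mul (B.card : ℝ)
    have h2 : Tendsto (fun n : ℕ => (n : ℝ) / c') atTop atTop :=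
      tendsto_natCast_atTop_atTop.atTop_div_const hc'0
    filter_upwards [h1.eventually (lt_mem_nhds hρ), h2.eventually (eventually_gt_atTop C),
      eventually_gt_atTop 0] with n h3 h4 hn
    obtain ⟨I, hI1, hI2, hI3⟩ := hI n h4
    refine ⟨I.card, ?_, ?_⟩
    · let w : I → S ⧸ (a ^ n • ⊤ : Submodule S S) := fun i =>
        Submodule.Quotient.mk ((∏ j, (X j : MvPowerSeries (Fin d) k) ^ i.1.2 j) • s i.1.1)
      have hw : LinearIndependent k w := by
        rw [Fintype.linearIndependent_iff]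
        intro g hg i
        let cf : (Σ _ : L, Fin d → ℕ) → k := fun i => if h : i ∈ I then g ⟨i, h⟩ else 0
        have h5 : g i = cf i.1 := by simp [cf]
        rw [h5]
        refine hI3 cf ⟨∑ i : I, g i • (∏ j, (X j : MvPowerSeries (Fin d) k) ^ i.1.2 j) • s i.1.1,
          ?_, ?_⟩ i.1 i.2
        · have h6 : (Submodule.Quotient.mk (∑ i : I, g i •
              (∏ j, (X j : MvPowerSeries (Fin d) k) ^ i.1.2 j) • s i.1.1) :
              S ⧸ (a ^ n • ⊤ : Submodule S S)) = 0 := by
            rw [← hg, ← Submodule.mkQ_apply, map_sum]; rfl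
          rwa [Submodule.Quotient.mk_eq_zero, smul_eq_mul, Ideal.mul_top] at h6
        · rw [map_sum, ← Finset.sum_coe_sort I]
          refine Finset.sum_congr rfl fun i _ => ?_
          rw [hY, ← smul_assoc, ← hsm, hs _ (hI1 _ i.2), Algebra.smul_def (g i), map_mul,
            ← IsScalarTower.algebraMap_apply]
          simp [cf]
      unfold lam
      rw [← len_eq hk]
      refine le_trans (le_of_eq ?_) (Module.length_le_of_injective _
        hw.fintypeLinearCombination_injective)
      rw [Module.length_pi_of_fintype]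
      simp
    · have hn' : (0 : ℝ) < n := by exact_mod_cast hn
      have h0 : (0 : ℝ) < d.factorial := by exact_mod_cast Nat.factorial_pos d
      rw [← mul_div_assoc, lt_div_iff₀ (by positivity)] at h3
      rw [← mul_div_assoc, div_le_iff₀ h0] at hI2
      have h5 : (d / c' * n + -C * d : ℝ) = (n / c' - C) * d := by ring
      rw [h5] at h3
      linarith

attribute [local instance] FractionRing.liftAlgebra in
theorem dom {S : Type} [CommRing S] [IsDomain S]
    [Algebra (MvPowerSeries (Fin d) k) S] [Module.Finite (MvPowerSeries (Fin d) k) S]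
    [Algebra k S] [IsScalarTower k (MvPowerSeries (Fin d) k) S] (hd : 0 < d)
    (hk : ∀ m : Ideal S, m.IsMaximal → Function.Surjective (algebraMap k (S ⧸ m)))
    (a : Ideal S) {c c' : ℝ} (hc : 0 < c) (hc' : c < c')
    (hq : ∀ Q : ℕ, ∃ q : ℕ, Q ≤ q ∧ ∀ N : ℕ, c * q ≤ N → a ^ N ≤
      Ideal.span (Set.range fun i => algebraMap (MvPowerSeries (Fin d) k) S (X i) ^ q)) :
    ∃ r : ℕ, UB d (lam (mX d k) S) r ∧ LB d (lam a S) (r * (d / c') ^ d) := by
  by_cases hinj : Function.Injective (algebraMap (MvPowerSeries (Fin d) k) S)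
  · have : FaithfulSMul (MvPowerSeries (Fin d) k) S :=
      (faithfulSMul_iff_algebraMap_injective _ _).mpr hinj
    have : IsDomain (MvPowerSeries (Fin d) k) := NoZeroDivisors.to_isDomain _
    exact dom0 (K := FractionRing (MvPowerSeries (Fin d) k)) (L := FractionRing S) hd hk a hc hc' hq
  · rw [injective_iff_map_eq_zero] at hinj
    push Not at hinj
    obtain ⟨δ, h1, h2⟩ := hinj
    refine ⟨0, ?_, ?_⟩
    · simpa using UB_tors' h2 fun x => by rw [Algebra.smul_def, h1, zero_mul]
    · simpa using LB.zero _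

theorem fin_case {S : Type} [CommRing S]
    [Algebra (MvPowerSeries (Fin d) k) S] [Module.Finite (MvPowerSeries (Fin d) k) S]
    [Algebra k S] [IsScalarTower k (MvPowerSeries (Fin d) k) S] (hd : 0 < d)
    (hk : ∀ m : Ideal S, m.IsMaximal → Function.Surjective (algebraMap k (S ⧸ m)))
    (a : Ideal S) {c c' : ℝ} (hc : 0 < c) (hc' : c < c')
    (hq : ∀ Q : ℕ, ∃ q : ℕ, Q ≤ q ∧ ∀ N : ℕ, c * q ≤ N → a ^ N ≤
      Ideal.span (Set.range fun i => algebraMap (MvPowerSeries (Fin d) k) S (X i) ^ q)) :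
    ∃ r : ℕ, UB d (lam ((mX d k).map (algebraMap _ S)) S) r ∧
      LB d (lam a S) (r * (d / c') ^ d) := by
  have : IsNoetherianRing S := IsNoetherianRing.of_finite (MvPowerSeries (Fin d) k) S
  refine IsNoetherianRing.induction_on_isQuotientEquivQuotientPrime S (M := S) inferInstance
    (motive := fun N _ _ _ => ∃ r : ℕ, UB d (lam ((mX d k).map (algebraMap _ S)) N) r ∧
      LB d (lam a N) (r * (d / c') ^ d)) ?_ ?_ ?_
  · intro N _ _ _ _
    refine ⟨0, ?_, by simpa using LB.zero _⟩
    rw [Nat.cast_zero]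
    exact UB.zero.mono fun n => le_of_eq Module.length_eq_zero
  · intro N _ _ _ p e
    rw [lam_congr _ e, lam_congr _ e]
    have hp := p.2
    have h1 : ∀ m : Ideal (S ⧸ p.1), m.IsMaximal →
        Function.Surjective (algebraMap S ((S ⧸ p.1) ⧸ m)) := fun m _ =>
      Ideal.Quotient.mk_surjective.comp Ideal.Quotient.mk_surjective
    have h2 : ∀ m : Ideal (S ⧸ p.1), m.IsMaximal →
        Function.Surjective (algebraMap k ((S ⧸ p.1) ⧸ m)) := by
      intro m hm x
      obtain ⟨y, rfl⟩ := h1 m hm x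
      obtain ⟨z, hz⟩ := hk (m.comap (Ideal.Quotient.mk p.1))
        (Ideal.comap_isMaximal_of_surjective _ Ideal.Quotient.mk_surjective)
        (Ideal.Quotient.mk _ y)
      refine ⟨z, ?_⟩
      rw [IsScalarTower.algebraMap_apply k S, Ideal.Quotient.algebraMap_eq,
        Ideal.Quotient.eq] at hz
      rw [IsScalarTower.algebraMap_apply k S, ← sub_eq_zero, ← map_sub]
      exact Ideal.Quotient.eq_zero_iff_mem.mpr hz
    have h3 : ∀ m : Ideal S, m.IsMaximal →
        Function.Surjective (algebraMap (MvPowerSeries (Fin d) k) (S ⧸ m)) := by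
      intro m hm x
      obtain ⟨z, rfl⟩ := hk m hm x
      exact ⟨algebraMap k _ z, (IsScalarTower.algebraMap_apply _ _ _ _).symm⟩
    have : Module.Finite (MvPowerSeries (Fin d) k) (S ⧸ p.1) := Module.Finite.trans S _
    rw [← lam_tower h3, lam_tower h1 a]
    refine dom hd h2 _ hc hc' fun Q => ?_
    obtain ⟨q, hq1, hq2⟩ := hq Q
    refine ⟨q, hq1, fun N hN => ?_⟩
    rw [← Ideal.map_pow]
    refine (Ideal.map_mono (hq2 N hN)).trans (le_of_eq ?_)
    rw [Ideal.map_span, ← Set.range_comp]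
    congr 2
  · intro N₁ _ _ _ N₂ _ _ _ N₃ _ _ _ f g hf hg H ⟨r, h1, h2⟩ ⟨r', h1', h2'⟩
    obtain ⟨C, hC⟩ := lam_AR a f g hf hg H
    refine ⟨r + r', ?_, ?_⟩
    · push_cast
      exact (h1.add h1').mono (lam_sub _ f g hg H)
    · push_cast
      rw [add_mul]
      exact h2.add h2' C hC

end Pool.Agent.H.MP_286f1f_ag
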