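import Pool.Agent.H.MP_286f1f_ag.A2

set_option autoImplicit false

namespace Pool.Agent.H.MP_286f1f_ag

open Finset Filter Topology MvPowerSeries IsLocalRing

lemma len_fin {R : Type} [CommRing R] [IsLocalRing R] [IsNoetherianRing R] (I : Ideal R)
    (hI : I.radical = maximalIdeal R) (n : ℕ) : Module.length R (R ⧸ I ^ n) ≠ ⊤ := by
  have : Ring.KrullDimLE 0 (R ⧸ I ^ n) := by
    rw [Ideal.krullDimLE_zero_quotient_iff_forall_minimalPrimes_isMaximal]
    intro J hJ
    have h1 : J.IsPrime := hJ.1.1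
    have h2 : maximalIdeal R ≤ J := by
      rw [← hI, h1.radical_le_iff]
      exact h1.le_of_pow_le hJ.1.2
    rw [← (maximalIdeal.isMaximal R).eq_of_le h1.ne_top h2]
    infer_instance
  have : IsArtinianRing (R ⧸ I ^ n) := IsNoetherianRing.isArtinianRing_of_krullDimLE_zero
  rw [Module.length_eq_of_surjective (R := R ⧸ I ^ n) Ideal.Quotient.mk_surjective]
  exact Module.length_ne_top

theorem local_case {R : Type} [CommRing R] [IsLocalRing R] [IsNoetherianRing R] (p : ℕ)
    [Fact p.Prime] [CharP R p] {d : ℕ} (hd : 0 < d) (x : Fin d → R)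
    (hx : (Ideal.span (Set.range x)).radical = maximalIdeal R) (a : Ideal R)
    (ha : a.radical = maximalIdeal R) {c c' : ℝ} (hc : 0 < c) (hc' : c < c')
    (hq : ∀ Q : ℕ, ∃ q : ℕ, Q ≤ q ∧ ∀ N : ℕ, c * q ≤ N → a ^ N ≤
      Ideal.span (Set.range fun i => x i ^ q)) :
    ∃ r : ℕ, UB d (fun n => Module.length R (R ⧸ Ideal.span (Set.range x) ^ n)) r ∧
      LB d (fun n => Module.length R (R ⧸ a ^ n)) (r * (d / c') ^ d) := by
  let S := AdicCompletion (maximalIdeal R) R
  have : CharP S p := charP_of_injective_ringHom (f := algebraMap R S)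
    (AdicCompletion.of_injective (maximalIdeal R) R) p
  obtain ⟨s, hs⟩ := coeff_field (S := S) p
  let _ : Algebra (ResidueField S) S := s.toAlgebra
  have hxm : ∀ i, algebraMap R S (x i) ∈ maximalIdeal S := fun i => by
    rw [AdicCompletion.maximalIdeal_eq_map]
    exact Ideal.mem_map_of_mem _ (hx ▸ Ideal.le_radical (Ideal.subset_span ⟨i, rfl⟩))
  obtain ⟨φ, hφ1, hφ2⟩ := exists_hom (k := ResidueField S) (maximalIdeal S)
    (fun i => algebraMap R S (x i)) hxm
  let _ : Algebra (MvPowerSeries (Fin d) (ResidueField S)) S := φ.toAlgebra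
  have : IsScalarTower (ResidueField S) (MvPowerSeries (Fin d) (ResidueField S)) S :=
    IsScalarTower.of_algebraMap_eq fun c => (hφ2 c).symm
  have hk : ∀ m : Ideal S, m.IsMaximal →
      Function.Surjective (algebraMap (ResidueField S) (S ⧸ m)) := by
    intro m hm
    obtain rfl := eq_maximalIdeal hm
    exact fun y => ⟨y, hs y⟩
  have h3 : ∀ m : Ideal S, m.IsMaximal → Function.Surjective
      (algebraMap (MvPowerSeries (Fin d) (ResidueField S)) (S ⧸ m)) := by
    intro m hm x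
    obtain ⟨z, rfl⟩ := hk m hm x
    exact ⟨algebraMap (ResidueField S) _ z, (IsScalarTower.algebraMap_apply _ _ _ _).symm⟩
  have hJ : (mX d (ResidueField S)).map (algebraMap _ S) =
      (Ideal.span (Set.range x)).map (algebraMap R S) := by
    rw [Ideal.map_span, Ideal.map_span, ← Set.range_comp, ← Set.range_comp]
    congr 2
    exact funext hφ1
  have hfin : Module.Finite (ResidueField S) (S ⧸ (mX d (ResidueField S) • ⊤ :
      Submodule (MvPowerSeries (Fin d) (ResidueField S)) S)) := by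
    have h1 := len_fin _ hx 1
    rw [← lam_compl _ hx, ← hJ, ← lam_tower h3] at h1
    unfold lam at h1
    rw [pow_one, ← len_eq (hA (k := ResidueField S)), Module.length_ne_top_iff,
      isFiniteLength_iff_isNoetherian_isArtinian] at h1
    have := h1.1
    infer_instance
  have := finite_of (d := d) (k := ResidueField S) (maximalIdeal S) (by
    rw [hJ, Ideal.map_span, Ideal.span_le]
    rintro _ ⟨_, ⟨i, rfl⟩, rfl⟩
    exact hxm i)
  obtain ⟨r, h1, h2⟩ := fin_case (k := ResidueField S) hd hk (a.map (algebraMap R S)) hc hc'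
    fun Q => by
      obtain ⟨q, hq1, hq2⟩ := hq Q
      refine ⟨q, hq1, fun N hN => ?_⟩
      rw [← Ideal.map_pow]
      refine (Ideal.map_mono (hq2 N hN)).trans (le_of_eq ?_)
      rw [Ideal.map_span, ← Set.range_comp]
      congr 2
      funext i
      rw [Function.comp_apply, map_pow, ← hφ1]; rfl
  rw [hJ, funext (lam_compl _ hx)] at h1
  rw [funext (lam_compl _ ha)] at h2
  exact ⟨r, h1, h2⟩

lemma UB.le {d : ℕ} {f : ℕ → ℕ∞} {ρ e : ℝ} (h : UB d f ρ)
    (he : Tendsto (fun n : ℕ => (d.factorial : ℝ) * ((f n).toNat : ℝ) / (n : ℝ) ^ d) atTop (𝓝 e)) :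
    e ≤ ρ := by
  refine le_of_forall_gt_imp_ge_of_dense fun ρ' hρ => le_of_tendsto he ?_
  filter_upwards [h ρ' hρ, eventually_gt_atTop 0] with n ⟨m, h1, h2⟩ hn
  rw [div_le_iff₀ (by positivity)]
  refine le_trans (mul_le_mul_of_nonneg_left ?_ (by positivity)) h2
  exact_mod_cast ENat.toNat_le_of_le_natCast h1

lemma LB.le {d : ℕ} {f : ℕ → ℕ∞} {ρ e : ℝ} (h : LB d f ρ) (hf : ∀ n, f n ≠ ⊤)
    (he : Tendsto (fun n : ℕ => (d.factorial : ℝ) * ((f n).toNat : ℝ) / (n : ℝ) ^ d) atTop (𝓝 e)) :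
    ρ ≤ e := by
  refine le_of_forall_lt_imp_le_of_dense fun ρ' hρ => ge_of_tendsto he ?_
  filter_upwards [h ρ' hρ, eventually_gt_atTop 0] with n ⟨m, h1, h2⟩ hn
  rw [le_div_iff₀ (by positivity)]
  refine h2.trans (mul_le_mul_of_nonneg_left ?_ (by positivity))
  have := ENat.toNat_le_toNat h1 (hf n)
  exact_mod_cast this

theorem final {R : Type} [CommRing R] [IsLocalRing R] [IsNoetherianRing R] (p : ℕ)
    [hp : Fact p.Prime] [CharP R p] {d : ℕ} (x : Fin d → R)
    (hx : (Ideal.span (Set.range x)).radical = maximalIdeal R) (a : Ideal R)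
    (ha : a.radical = maximalIdeal R) {c eJ ea : ℝ}
    (h1 : Tendsto (fun e : ℕ =>
      ((sInf {N : ℕ | a ^ N ≤ Ideal.span (Set.range (fun i => x i ^ p ^ e))} : ℕ) : ℝ)
        / (p : ℝ) ^ e) atTop (𝓝 c))
    (h2 : Tendsto (fun n : ℕ => (d.factorial : ℝ)
      * ((Module.length R (R ⧸ (Ideal.span (Set.range x)) ^ n)).toNat : ℝ) / (n : ℝ) ^ d)
      atTop (𝓝 eJ))
    (h3 : Tendsto (fun n : ℕ =>
      (d.factorial : ℝ) * ((Module.length R (R ⧸ a ^ n)).toNat : ℝ) / (n : ℝ) ^ d) atTop (𝓝 ea)) :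
    eJ ≤ (c / (d : ℝ)) ^ d * ea := by
  rcases Nat.eq_zero_or_pos d with rfl | hd
  · rw [pow_zero, one_mul]
    have h0 : Ideal.span (Set.range x) = ⊥ := by simp [Set.range_eq_empty]
    obtain ⟨N, hN⟩ := Ideal.exists_pow_le_of_le_radical_of_fg
      (show a ≤ (Ideal.span (Set.range x)).radical from hx ▸ ha ▸ Ideal.le_radical)
      (IsNoetherian.noetherian _)
    refine le_of_eq (tendsto_nhds_unique_of_eventuallyEq h2 h3 ?_)
    filter_upwards [eventually_gt_atTop N] with n hn
    have h4 : a ^ n = ⊥ := le_bot_iff.mp ((Ideal.pow_le_pow_right hn.le).trans (hN.trans h0.le))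
    have h5 : Ideal.span (Set.range x) ^ n = ⊥ := by
      rw [h0, ← Ideal.zero_eq_bot, zero_pow (by omega)]
    rw [h4, h5]
  have hd' : (0 : ℝ) < d := by exact_mod_cast hd
  have hc0 : 0 ≤ c := ge_of_tendsto' h1 fun e => by positivity
  have key : ∀ c', c < c' → eJ ≤ (c' / d) ^ d * ea := by
    intro c' hc'
    obtain ⟨c1, hc1, hc2⟩ := exists_between hc'
    have hc'0 : 0 < c' := hc0.trans_lt hc'
    obtain ⟨r, hr1, hr2⟩ := local_case p hd x hx a ha (hc0.trans_lt hc1) hc2 fun Q => by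
      obtain ⟨e, he1, he2⟩ := ((h1.eventually (gt_mem_nhds hc1)).and (eventually_ge_atTop Q)).exists
      refine ⟨p ^ e, he2.trans (Nat.lt_pow_self hp.out.one_lt).le, fun N hN => ?_⟩
      have hne : {N : ℕ | a ^ N ≤ Ideal.span (Set.range (fun i => x i ^ p ^ e))}.Nonempty := by
        refine Ideal.exists_pow_le_of_le_radical_of_fg ?_ (IsNoetherian.noetherian _)
        refine Ideal.le_radical.trans (ha.le.trans (hx.ge.trans ?_))
        rw [Ideal.radical_le_radical_iff, Ideal.span_le]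
        rintro _ ⟨i, rfl⟩
        exact ⟨p ^ e, Ideal.subset_span ⟨i, rfl⟩⟩
      refine (Ideal.pow_le_pow_right ?_).trans (Nat.sInf_mem hne)
      have hp0 : (0 : ℝ) < (p : ℝ) ^ e := pow_pos (by exact_mod_cast hp.out.pos) e
      rw [div_lt_iff₀ hp0] at he1
      push_cast at hN
      exact_mod_cast (he1.trans_le hN).le
    have h4 := hr1.le h2
    have h5 := hr2.le (len_fin a ha) h3
    calc eJ ≤ r := h4
      _ = (c' / d) ^ d * (r * (d / c') ^ d) := by
        rw [mul_left_comm, ← mul_pow, div_mul_div_cancel₀ hd'.ne', div_self hc'0.ne', one_pow,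
          mul_one]
      _ ≤ _ := mul_le_mul_of_nonneg_left h5 (by positivity)
  have hcont : Tendsto (fun c' : ℝ => (c' / d) ^ d * ea) (𝓝[>] c) (𝓝 ((c / d) ^ d * ea)) :=
    (Continuous.tendsto (by fun_prop) c).mono_left nhdsWithin_le_nhds
  exact ge_of_tendsto hcont (eventually_nhdsWithin_of_forall key)

end Pool.Agent.H.MP_286f1f_ag
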