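import Pool.Agent.H.MP_286f1f_ag.B

set_option autoImplicit false

namespace Pool.Agent.H.MP_286f1f_ag

open Finset Filter Topology MvPowerSeries

variable {d : ℕ} {k : Type} [Field k]

noncomputable abbrev mX (d : ℕ) (k : Type) [Field k] : Ideal (MvPowerSeries (Fin d) k) :=
  Ideal.span (Set.range X)

lemma mem_pow (f : MvPowerSeries (Fin d) k) (n : ℕ) :
    f ∈ mX d k ^ n ↔ ∀ x : Fin d →₀ ℕ, Finsupp.degree x < n → coeff x f = 0 := by
  have h1 : Ideal.map (toAdicCompletionAlgEquiv (Fin d) k).toRingEquiv (mX d k) =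
      (MvPolynomial.idealOfVars (Fin d) k).map (algebraMap ..) := by
    simp_rw [Ideal.map_span, ← Set.range_comp]
    congr 2; ext1
    simp [AdicCompletion.algebraMap_apply, ← MvPolynomial.coe_X, toAdicCompletion_coe]
  rw [← Ideal.apply_mem_of_equiv_iff (f := (toAdicCompletionAlgEquiv (Fin d) k).toRingEquiv),
    Ideal.map_pow, h1, ← Ideal.map_pow,
    ← Submodule.restrictScalars_mem (MvPolynomial (Fin d) k), ← Ideal.smul_top_eq_map,
    AdicCompletion.pow_smul_top_eq_ker_eval (MvPolynomial.idealOfVars_fg _ _), LinearMap.mem_ker,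
    AdicCompletion.eval_apply]
  change (toAdicCompletion (Fin d) k f).val n = 0 ↔ _
  rw [toAdicCompletion_apply_eq_mk_truncTotal, Ideal.Quotient.eq_zero_iff_mem, smul_eq_mul,
    Ideal.mul_top, MvPolynomial.mem_pow_idealOfVars_iff']
  exact forall_congr' fun x => forall_congr' fun hx => by rw [coeff_truncTotal _ hx]

lemma hA (m : Ideal (MvPowerSeries (Fin d) k)) (hm : m.IsMaximal) :
    Function.Surjective (algebraMap k (MvPowerSeries (Fin d) k ⧸ m)) := by
  intro x
  obtain ⟨f, rfl⟩ := Ideal.Quotient.mk_surjective x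
  refine ⟨coeff 0 f, ?_⟩
  have h1 : mX d k ≤ m := (IsAdicComplete.le_jacobson_bot _).trans (sInf_le ⟨bot_le, hm⟩)
  rw [IsScalarTower.algebraMap_apply k (MvPowerSeries (Fin d) k), Ideal.Quotient.algebraMap_eq,
    Ideal.Quotient.eq]
  apply h1
  rw [← pow_one (mX d k), mem_pow]
  intro x hx
  have : x = 0 := (Finsupp.degree_eq_zero_iff x).mp (by omega)
  subst this
  simp [MvPowerSeries.algebraMap_apply]

lemma lam_A (n : ℕ) : lam (mX d k) (MvPowerSeries (Fin d) k) (n + 1) = ((n + d).choose d : ℕ) := by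
  classical
  let G := (Finsupp.finite_of_degree_lt (σ := Fin d) (n + 1)).toFinset
  have hG : ∀ x, x ∈ G ↔ Finsupp.degree x < n + 1 := fun x => by simp [G]
  have hcard : G.card = (n + d).choose d := by
    have : G = (range (n + 1)).biUnion fun m => (univ : Finset (Fin d)).finsuppAntidiag m := by
      ext x
      simp only [hG, Finset.mem_biUnion, Finset.mem_range, Finset.mem_finsuppAntidiag,
        Finset.subset_univ, and_true, Finsupp.degree_eq_sum]
      exact ⟨fun h => ⟨_, h, rfl⟩, fun ⟨a, h1, h2⟩ => h2 ▸ h1⟩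
    rw [this, Finset.card_biUnion]
    · simp only [Finset.card_finsuppAntidiag_nat_eq_multichoose, Finset.card_univ,
        Fintype.card_fin]
      exact Nat.sum_range_multichoose n d
    · intro a _ b _ hab
      rw [Function.onFun, Finset.disjoint_left]
      intro x h1 h2
      rw [Finset.mem_finsuppAntidiag] at h1 h2
      exact hab (h1.1.symm.trans h2.1)
  let ψ : MvPowerSeries (Fin d) k →ₗ[k] (G → k) := LinearMap.pi fun x => coeff x.1
  have hψ : Function.Surjective ψ := by
    intro y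
    refine ⟨fun x => if h : x ∈ G then y ⟨x, h⟩ else 0, funext fun x => ?_⟩
    exact dif_pos x.2
  have hker : LinearMap.ker ψ =
      (mX d k ^ (n + 1) • ⊤ : Submodule (MvPowerSeries (Fin d) k) _).restrictScalars k := by
    ext f
    rw [LinearMap.mem_ker, Submodule.restrictScalars_mem, smul_eq_mul, Ideal.mul_top, mem_pow]
    exact ⟨fun h x hx => congrFun h ⟨x, (hG x).mpr hx⟩,
      fun h => funext fun x => h x.1 ((hG _).mp x.2)⟩
  unfold lam
  rw [← len_eq (hA (k := k)), ← (Submodule.Quotient.restrictScalarsEquiv k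
    (mX d k ^ (n + 1) • ⊤ : Submodule (MvPowerSeries (Fin d) k) _)).length_eq, ← hker,
    (ψ.quotKerEquivOfSurjective hψ).length_eq, Module.length_pi_of_fintype, ← hcard]
  simp

lemma choose_bounds (n d : ℕ) : ((n : ℝ) + 1) ^ d ≤ d.factorial * ((n + d).choose d : ℕ) ∧
    (d.factorial * ((n + d).choose d : ℕ) : ℝ) ≤ ((n : ℝ) + d) ^ d := by
  have h0 : (0 : ℝ) < d.factorial := by exact_mod_cast Nat.factorial_pos d
  constructor
  · have := Nat.pow_le_choose (α := ℝ) d (n + d)
    rw [div_le_iff₀ h0, show n + d + 1 - d = n + 1 by omega] at this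
    push_cast at this
    linarith
  · have := Nat.choose_le_pow_div (α := ℝ) d (n + d)
    rw [le_div_iff₀ h0] at this
    push_cast at this
    linarith

lemma UB_A : UB d (lam (mX d k) (MvPowerSeries (Fin d) k)) 1 := by
  intro ρ hρ
  have h := ev 1 (d - 1) d
  rw [one_pow] at h
  filter_upwards [h.eventually (gt_mem_nhds hρ), eventually_gt_atTop 0] with n h1 hn
  obtain ⟨n, rfl⟩ : ∃ m, n = m + 1 := ⟨n - 1, by omega⟩
  refine ⟨_, (lam_A n).le, (choose_bounds n d).2.trans ?_⟩
  rw [div_lt_iff₀ (by positivity)] at h1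
  refine le_trans (le_of_eq ?_) h1.le
  push_cast; ring

lemma UB_tors {δ : MvPowerSeries (Fin d) k} (hδ : δ ≠ 0) :
    UB d (lam (mX d k) (MvPowerSeries (Fin d) k ⧸ Ideal.span {δ})) 0 := by
  obtain ⟨C, hC⟩ := lam_AR (mX d k) (LinearMap.lsmul _ (MvPowerSeries (Fin d) k) δ)
    (Ideal.span {δ}).mkQ (fun a b h => mul_left_cancel₀ hδ h) (Submodule.mkQ_surjective _) (by
      intro x
      rw [Submodule.mkQ_apply, Submodule.Quotient.mk_eq_zero, Ideal.mem_span_singleton']
      exact ⟨fun ⟨a, h⟩ => ⟨a, by rw [← h, mul_comm]; rfl⟩,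
        fun ⟨a, h⟩ => ⟨a, by rw [← h, mul_comm]; rfl⟩⟩)
  intro ρ hρ
  have h := (ev 1 (d - 1) d).sub (ev 1 (-C) d)
  rw [sub_self] at h
  filter_upwards [h.eventually (gt_mem_nhds hρ), eventually_gt_atTop C] with n h1 hn
  obtain ⟨n, rfl⟩ : ∃ m, n = m + C + 1 := ⟨n - C - 1, by omega⟩
  have h2 := hC _ hn.le
  rw [show n + C + 1 - C = n + 1 by omega, lam_A, lam_A] at h2
  obtain ⟨m, hm⟩ := ENat.ne_top_iff_exists.mp
    (ne_top_of_le_ne_top (ENat.natCast_ne_top _) (le_add_self.trans h2))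
  rw [← hm] at h2
  have h3 : (((n + d).choose d : ℕ) : ℝ) + m ≤ ((n + C + d).choose d : ℕ) := by
    exact_mod_cast h2
  refine ⟨m, hm.ge, ?_⟩
  rw [← sub_div, div_lt_iff₀ (by positivity)] at h1
  have h4 := (choose_bounds n d).1
  have h5 := (choose_bounds (n + C) d).2
  have h6 := mul_le_mul_of_nonneg_left h3 (Nat.cast_nonneg (α := ℝ) d.factorial)
  have h7 : (1 * ((n + C + 1 : ℕ) : ℝ) + (d - 1)) = ((n + C : ℕ) : ℝ) + d := by push_cast; ring
  have h8 : (1 * ((n + C + 1 : ℕ) : ℝ) + -C) = (n : ℝ) + 1 := by push_cast; ring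
  rw [h7, h8] at h1
  linarith

lemma UB_tors' {M : Type} [AddCommGroup M] [Module (MvPowerSeries (Fin d) k) M]
    [Module.Finite (MvPowerSeries (Fin d) k) M] {δ : MvPowerSeries (Fin d) k} (hδ : δ ≠ 0)
    (h : ∀ x : M, δ • x = 0) : UB d (lam (mX d k) M) 0 := by
  obtain ⟨r, s, hs⟩ := Module.Finite.exists_fin (R := MvPowerSeries (Fin d) k) (M := M)
  have h1 := (UB_tors hδ).nmul r
  rw [mul_zero] at h1
  refine h1.mono fun n => ?_
  have := lam_gen (mX d k) (fun i => (Ideal.span {δ}).liftQ (LinearMap.toSpanSingleton _ M (s i))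
    (by
      rw [Ideal.span_le]
      rintro _ rfl
      exact h _)) (fun x => by
    obtain ⟨c, hc⟩ := (Submodule.mem_span_range_iff_exists_fun _).mp
      (show x ∈ Submodule.span (MvPowerSeries (Fin d) k) (Set.range s) by rw [hs]; trivial)
    exact ⟨fun i => Submodule.Quotient.mk (c i), hc.symm⟩) n
  simpa using this

end Pool.Agent.H.MP_286f1f_ag
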